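import Pool.Agent.Helper23.KU.Stat
import Pool.Agent.Helper14.KU.Ip
import Pool.Agent.Helper33.KU.Growth

/-!
# KU: common denominators
-/

set_option autoImplicit false

namespace Pool.Agent.Helper23.KU

open Polynomial Filter Topology Metric MeasureTheory Set
open Pool.Agent.Helper23.KB (Sph Dom KF Ext sq area_series ms_series kf_le kf_dn kf_nonneg int_cont)
open Pool.Agent.Helper21.IM (PS ps_exists ps_diff ps_mul ps_add ps_congr ps_unique)

theorem ts_inj {f : ℂ → ℂ} {A B : PowerSeries ℂ} (h : TS f A) (h' : TS f B) : A = B := by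
  have h2 := ps_unique h h'
  ext n
  exact congrFun h2 n

theorem ts_congr {f g : ℂ → ℂ} {A : PowerSeries ℂ} (h : TS f A)
    (h' : ∀ z ∈ ball (0 : ℂ) 1, f z = g z) : TS g A := ps_congr h h'

theorem ts_eqOn {f g : ℂ → ℂ} {A : PowerSeries ℂ} (h : TS f A) (h' : TS g A) :
    ∀ z ∈ ball (0 : ℂ) 1, f z = g z := fun z hz => (h z hz).unique (h' z hz)

theorem ts_exists {f : ℂ → ℂ} (h : DifferentiableOn ℂ f (ball 0 1)) : ∃ A, TS f A := by
  obtain ⟨a, ha⟩ := ps_exists h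
  refine ⟨PowerSeries.mk a, fun z hz => ?_⟩
  simp only [PowerSeries.coeff_mk]
  exact ha z hz

/-- a nonzero polynomial factor cancels -/
theorem cancel {δ : ℂ[X]} (hδ : δ ≠ 0) {u v : ℂ → ℂ} (hu : DifferentiableOn ℂ u (ball 0 1))
    (hv : DifferentiableOn ℂ v (ball 0 1))
    (h : ∀ z ∈ ball (0 : ℂ) 1, δ.eval z * u z = δ.eval z * v z) :
    ∀ z ∈ ball (0 : ℂ) 1, u z = v z := by
  obtain ⟨A, hA⟩ := ts_exists hu
  obtain ⟨B, hB⟩ := ts_exists hv
  have h1 := ts_mul (ts_poly δ) hA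
  have h2 := ts_mul (ts_poly δ) hB
  have h3 := ts_inj (ts_congr h1 h) h2
  have h4 : (δ : PowerSeries ℂ) ≠ 0 := by
    intro h5
    exact hδ (Polynomial.coe_injective ℂ (by rw [h5, Polynomial.coe_zero]))
  have h5 := mul_left_cancel₀ h4 h3
  rw [← h5] at hB
  exact ts_eqOn hA hB

theorem rv_mul {a b : ℂ[X]} {d e : ℕ} (ha : a.natDegree ≤ d) (hb : b.natDegree ≤ e) :
    rv (d + e) (a * b) = rv d a * rv e b := by
  unfold rv
  rw [Polynomial.map_mul]
  exact Polynomial.reflect_mul _ _ (natDegree_map_le.trans ha) (natDegree_map_le.trans hb)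

theorem rv_ne {a : ℂ[X]} {d : ℕ} (ha : a ≠ 0) : rv d a ≠ 0 := by
  unfold rv
  intro h
  rw [Polynomial.reflect_eq_zero_iff] at h
  exact ha ((Polynomial.map_eq_zero _).1 h)

theorem bez2 (A B : ℂ[X]) : ∃ g a b u v : ℂ[X], A = g * a ∧ B = g * b ∧ u * a + v * b = 1 := by
  by_cases h : A = 0 ∧ B = 0
  · exact ⟨0, 1, 0, 1, 0, by rw [h.1, zero_mul], by rw [h.2, zero_mul], by ring⟩
  · have hg : EuclideanDomain.gcd A B ≠ 0 := by
      intro h2
      exact h (EuclideanDomain.gcd_eq_zero_iff.1 h2)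
    obtain ⟨a, ha⟩ := EuclideanDomain.gcd_dvd_left A B
    obtain ⟨b, hb⟩ := EuclideanDomain.gcd_dvd_right A B
    refine ⟨EuclideanDomain.gcd A B, a, b, EuclideanDomain.gcdA A B, EuclideanDomain.gcdB A B,
      ha, hb, ?_⟩
    have h2 := EuclideanDomain.gcd_eq_gcd_ab A B
    have h3 : EuclideanDomain.gcd A B * (EuclideanDomain.gcdA A B * a +
        EuclideanDomain.gcdB A B * b) = EuclideanDomain.gcd A B * 1 := by
      calc EuclideanDomain.gcd A B * (EuclideanDomain.gcdA A B * a +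
            EuclideanDomain.gcdB A B * b) = (EuclideanDomain.gcd A B * a) *
              EuclideanDomain.gcdA A B + (EuclideanDomain.gcd A B * b) *
                EuclideanDomain.gcdB A B := by ring
        _ = A * EuclideanDomain.gcdA A B + B * EuclideanDomain.gcdB A B := by
            rw [← ha, ← hb]
        _ = EuclideanDomain.gcd A B * 1 := by rw [mul_one]; exact h2.symm
    exact mul_left_cancel₀ hg h3

theorem bez3 (A B D : ℂ[X]) : ∃ g a b d u v w : ℂ[X], A = g * a ∧ B = g * b ∧ D = g * d ∧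
    u * a + v * b + w * d = 1 := by
  obtain ⟨g₁, b', d', v', w', h1, h2, h3⟩ := bez2 B D
  obtain ⟨g, a, e, x, y, h4, h5, h6⟩ := bez2 A g₁
  refine ⟨g, a, e * b', e * d', x, y * v', y * w', h4, ?_, ?_, ?_⟩
  · rw [h1, h5]
    ring
  · rw [h2, h5]
    ring
  · calc x * a + y * v' * (e * b') + y * w' * (e * d') = x * a + y * e * (v' * b' + w' * d') := by
          ring
      _ = 1 := by rw [h3, mul_one]; exact h6

/-- two functions with a rational quotient are polynomial multiples, with coprime polynomials, of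
one function -/
theorem pair_form {f g : ℂ → ℂ} (hf : DifferentiableOn ℂ f (ball 0 1))
    (hg : DifferentiableOn ℂ g (ball 0 1)) (hfi : IntegrableOn (fun z => ‖f z‖ ^ 2) (ball 0 1))
    (hgi : IntegrableOn (fun z => ‖g z‖ ^ 2) (ball 0 1)) {p q : ℂ[X]} (hq : q ≠ 0)
    (h : ∀ z ∈ ball (0 : ℂ) 1, q.eval z * f z = p.eval z * g z) :
    ∃ (p' q' : ℂ[X]) (Y : ℂ → ℂ), IsCoprime p' q' ∧ DifferentiableOn ℂ Y (ball 0 1) ∧
      IntegrableOn (fun z => ‖Y z‖ ^ 2) (ball 0 1) ∧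
      (∀ z ∈ ball (0 : ℂ) 1, f z = p'.eval z * Y z) ∧
      (∀ z ∈ ball (0 : ℂ) 1, g z = q'.eval z * Y z) := by
  obtain ⟨δ, p', q', u, v, hp', hq', huv⟩ := bez2 p q
  have hδ : δ ≠ 0 := by
    intro h2
    rw [h2, zero_mul] at hq'
    exact hq hq'
  have h2 : ∀ z ∈ ball (0 : ℂ) 1, q'.eval z * f z = p'.eval z * g z := by
    refine cancel hδ ((Polynomial.differentiable _).differentiableOn.mul hf)
      ((Polynomial.differentiable _).differentiableOn.mul hg) fun z hz => ?_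
    have h3 := h z hz
    rw [hp', hq', eval_mul, eval_mul] at h3
    linear_combination h3
  have e : ∀ z : ℂ, u.eval z * p'.eval z + v.eval z * q'.eval z = 1 := by
    intro z
    have := congrArg (Polynomial.eval z) huv
    simpa only [eval_add, eval_mul, eval_one] using this
  refine ⟨p', q', fun z => u.eval z * f z + v.eval z * g z, ⟨u, v, huv⟩, ?_, ?_, ?_, ?_⟩
  · exact ((Polynomial.differentiable _).differentiableOn.mul hf).add
      ((Polynomial.differentiable _).differentiableOn.mul hg)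
  · exact int_add ((Polynomial.continuous _).continuousOn.mul hf.continuousOn)
      ((Polynomial.continuous _).continuousOn.mul hg.continuousOn)
      (int_mul hf.continuousOn hfi u) (int_mul hg.continuousOn hgi v)
  · intro z hz
    have h3 := h2 z hz
    linear_combination (-f z) * e z + v.eval z * h3
  · intro z hz
    have h3 := h2 z hz
    linear_combination (-g z) * e z - u.eval z * h3

/-- three functions with rational quotients are polynomial multiples of one function, without a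
common factor -/
theorem triple_form {f g₁ g₂ : ℂ → ℂ} (hf : DifferentiableOn ℂ f (ball 0 1))
    (hg₁ : DifferentiableOn ℂ g₁ (ball 0 1)) (hg₂ : DifferentiableOn ℂ g₂ (ball 0 1))
    (hfi : IntegrableOn (fun z => ‖f z‖ ^ 2) (ball 0 1))
    (hgi₁ : IntegrableOn (fun z => ‖g₁ z‖ ^ 2) (ball 0 1))
    (hgi₂ : IntegrableOn (fun z => ‖g₂ z‖ ^ 2) (ball 0 1)) {p₁ q₁ p₂ q₂ : ℂ[X]}
    (hq₁ : q₁ ≠ 0) (hq₂ : q₂ ≠ 0) (hp₁ : p₁ ≠ 0) (hp₂ : p₂ ≠ 0)
    (h₁ : ∀ z ∈ ball (0 : ℂ) 1, q₁.eval z * f z = p₁.eval z * g₁ z)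
    (h₂ : ∀ z ∈ ball (0 : ℂ) 1, q₂.eval z * f z = p₂.eval z * g₂ z) :
    ∃ (a₁ a₂ a₃ u v w : ℂ[X]) (Y : ℂ → ℂ), u * a₁ + v * a₂ + w * a₃ = 1 ∧
      a₁ ≠ 0 ∧ a₂ ≠ 0 ∧ a₃ ≠ 0 ∧
      q₁ * a₃ = p₁ * a₁ ∧ q₂ * a₃ = p₂ * a₂ ∧ DifferentiableOn ℂ Y (ball 0 1) ∧
      IntegrableOn (fun z => ‖Y z‖ ^ 2) (ball 0 1) ∧
      (∀ z ∈ ball (0 : ℂ) 1, f z = a₃.eval z * Y z) ∧
      (∀ z ∈ ball (0 : ℂ) 1, g₁ z = a₁.eval z * Y z) ∧
      (∀ z ∈ ball (0 : ℂ) 1, g₂ z = a₂.eval z * Y z) := by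
  obtain ⟨δ, a₁, a₂, a₃, u, v, w, e₁, e₂, e₃, huv⟩ := bez3 (q₁ * p₂) (q₂ * p₁) (p₁ * p₂)
  have hδ : δ ≠ 0 := by
    intro h
    rw [h, zero_mul] at e₃
    exact mul_ne_zero hp₁ hp₂ e₃
  have n₁ : a₁ ≠ 0 := by
    intro h
    rw [h, mul_zero] at e₁
    exact mul_ne_zero hq₁ hp₂ e₁
  have n₂ : a₂ ≠ 0 := by
    intro h
    rw [h, mul_zero] at e₂
    exact mul_ne_zero hq₂ hp₁ e₂
  have n₃ : a₃ ≠ 0 := by
    intro h
    rw [h, mul_zero] at e₃
    exact mul_ne_zero hp₁ hp₂ e₃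
  have r₁ : q₁ * a₃ = p₁ * a₁ := by
    refine mul_left_cancel₀ hδ ?_
    linear_combination (-q₁) * e₃ + p₁ * e₁
  have r₂ : q₂ * a₃ = p₂ * a₂ := by
    refine mul_left_cancel₀ hδ ?_
    linear_combination (-q₂) * e₃ + p₂ * e₂
  -- relations between the functions
  have dm : ∀ (a : ℂ[X]) {g : ℂ → ℂ}, DifferentiableOn ℂ g (ball 0 1) →
      DifferentiableOn ℂ (fun z => a.eval z * g z) (ball 0 1) := fun a g hg =>
    (Polynomial.differentiable _).differentiableOn.mul hg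
  have s₁ : ∀ z ∈ ball (0 : ℂ) 1, a₁.eval z * f z = a₃.eval z * g₁ z := by
    refine cancel hp₁ (dm a₁ hf) (dm a₃ hg₁) fun z hz => ?_
    have h3 := h₁ z hz
    have h4 := congrArg (Polynomial.eval z) r₁
    rw [eval_mul, eval_mul] at h4
    linear_combination (-f z) * h4 + a₃.eval z * h3
  have s₂ : ∀ z ∈ ball (0 : ℂ) 1, a₂.eval z * f z = a₃.eval z * g₂ z := by
    refine cancel hp₂ (dm a₂ hf) (dm a₃ hg₂) fun z hz => ?_
    have h3 := h₂ z hz
    have h4 := congrArg (Polynomial.eval z) r₂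
    rw [eval_mul, eval_mul] at h4
    linear_combination (-f z) * h4 + a₃.eval z * h3
  have s₃ : ∀ z ∈ ball (0 : ℂ) 1, a₂.eval z * g₁ z = a₁.eval z * g₂ z := by
    refine cancel n₃ (dm a₂ hg₁) (dm a₁ hg₂) fun z hz => ?_
    linear_combination (-a₂.eval z) * s₁ z hz + a₁.eval z * s₂ z hz
  have e : ∀ z : ℂ, u.eval z * a₁.eval z + v.eval z * a₂.eval z + w.eval z * a₃.eval z = 1 := by
    intro z
    have := congrArg (Polynomial.eval z) huv
    simpa only [eval_add, eval_mul, eval_one] using this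
  refine ⟨a₁, a₂, a₃, u, v, w, fun z => u.eval z * g₁ z + v.eval z * g₂ z + w.eval z * f z, huv,
    n₁, n₂, n₃, r₁, r₂, ?_, ?_, ?_, ?_, ?_⟩
  · exact ((dm u hg₁).add (dm v hg₂)).add (dm w hf)
  · exact int_add ((dm u hg₁).add (dm v hg₂)).continuousOn (dm w hf).continuousOn
      (int_add (dm u hg₁).continuousOn (dm v hg₂).continuousOn
        (int_mul hg₁.continuousOn hgi₁ u) (int_mul hg₂.continuousOn hgi₂ v))
      (int_mul hf.continuousOn hfi w)
  · intro z hz
    linear_combination (-f z) * e z + u.eval z * s₁ z hz + v.eval z * s₂ z hz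
  · intro z hz
    linear_combination (-g₁ z) * e z + v.eval z * s₃ z hz - w.eval z * s₁ z hz
  · intro z hz
    linear_combination (-g₂ z) * e z - u.eval z * s₃ z hz - w.eval z * s₂ z hz

/-- proportional polynomials -/
theorem prop_of_wronskian {a b : ℂ[X]} (ha : a ≠ 0)
    (h : derivative a * b - a * derivative b = 0) : ∃ κ : ℂ, b = C κ * a := by
  obtain ⟨g, a', b', u, v, e₁, e₂, huv⟩ := bez2 a b
  have hg : g ≠ 0 := by
    intro h2
    rw [h2, zero_mul] at e₁
    exact ha e₁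
  have h2 : g * g * (derivative a' * b' - a' * derivative b') = 0 := by
    rw [e₁, e₂, derivative_mul, derivative_mul] at h
    linear_combination h
  have h3 : derivative a' * b' - a' * derivative b' = 0 := by
    rcases mul_eq_zero.1 h2 with h4 | h4
    · exact absurd h4 (mul_ne_zero hg hg)
    · exact h4
  have hcop : IsCoprime a' b' := ⟨u, v, huv⟩
  have h4 : wronskian a' b' = 0 := by
    rw [wronskian]
    linear_combination (-h3)
  obtain ⟨h5, h6⟩ := hcop.wronskian_eq_zero_iff.1 h4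
  have h7 := natDegree_eq_zero_of_derivative_eq_zero h5
  have h8 := natDegree_eq_zero_of_derivative_eq_zero h6
  obtain ⟨x, hx⟩ := natDegree_eq_zero.1 h7
  obtain ⟨y, hy⟩ := natDegree_eq_zero.1 h8
  have hx0 : x ≠ 0 := by
    intro h9
    rw [h9, map_zero] at hx
    rw [← hx, mul_zero] at e₁
    exact ha e₁
  refine ⟨y / x, ?_⟩
  rw [e₁, e₂, ← hx, ← hy]
  have h9 : (C (y / x) : ℂ[X]) * C x = C y := by
    rw [← C_mul, div_mul_cancel₀ _ hx0]
  linear_combination (-g) * h9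

end Pool.Agent.Helper23.KU
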