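import Pool.Agent.Helper23.KU.Alg

/-!
# KU: the quotient of an extremal pair comes close to its bound at every boundary point
-/

set_option autoImplicit false

namespace Pool.Agent.Helper23.KU

open Polynomial Filter Topology Metric MeasureTheory Set
open Pool.Agent.Helper23.KB (Sph Dom KF Ext sq area_series ms_series kf_le kf_dn kf_nonneg int_cont)
open Pool.Agent.Helper21.IM (PS ps_exists ps_diff ps_mul ps_add ps_congr ps_unique)

theorem sph_ne {f : ℂ → ℂ} (h : Sph f) : ∃ z ∈ ball (0 : ℂ) 1, f z ≠ 0 := by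
  by_contra hcon
  push Not at hcon
  have h2 : ∫ z in ball (0 : ℂ) 1, ‖f z‖ ^ 2 = 0 := by
    rw [setIntegral_congr_fun (g := fun _ => (0 : ℝ)) measurableSet_ball]
    · simp
    · intro z hz
      show ‖f z‖ ^ 2 = 0
      rw [hcon z hz, norm_zero]
      ring
  have h3 := h.2.2
  rw [h2, mul_zero] at h3
  exact zero_ne_one h3

/-- evaluation at a point is bounded in the norm of the Bergman space -/
theorem eval_bound {z : ℂ} (hz : ‖z‖ < 1) : ∃ K : ℝ, 0 < K ∧ ∀ u : ℂ → ℂ,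
    DifferentiableOn ℂ u (ball 0 1) → IntegrableOn (fun z => ‖u z‖ ^ 2) (ball 0 1) →
      ‖u z‖ ^ 2 ≤ K * sq u 1 := by
  have hx : |‖z‖ ^ 2| < 1 := by
    rw [abs_of_nonneg (by positivity)]
    nlinarith [norm_nonneg z]
  have hs : Summable fun n : ℕ => ((n : ℝ) + 1) * (‖z‖ ^ 2) ^ n := by
    have h1 := summable_pow_mul_geometric_of_norm_lt_one 1 (r := ‖z‖ ^ 2) (by
      rwa [Real.norm_eq_abs])
    have h2 := summable_geometric_of_abs_lt_one hx
    refine (h1.add h2).congr fun n => ?_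
    ring
  refine ⟨1 + ∑' n : ℕ, ((n : ℝ) + 1) * (‖z‖ ^ 2) ^ n, ?_, fun u hu hui => ?_⟩
  · have : 0 ≤ ∑' n : ℕ, ((n : ℝ) + 1) * (‖z‖ ^ 2) ^ n := tsum_nonneg fun n => by positivity
    linarith
  · obtain ⟨a, ha⟩ := ps_exists hu
    have h1 := area_series ha zero_le_one le_rfl hui
    have h2 := (ha z (by rwa [mem_ball_zero_iff])).tendsto_sum_nat
    have h3 := ((h2.norm).pow 2)
    refine le_of_tendsto' h3 fun N => ?_
    have h4 : ‖∑ n ∈ Finset.range N, a n * z ^ n‖ ≤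
        ∑ n ∈ Finset.range N, (‖a n‖ / √((n : ℝ) + 1)) * (√((n : ℝ) + 1) * ‖z‖ ^ n) := by
      refine (norm_sum_le _ _).trans (Finset.sum_le_sum fun n _ => ?_)
      have : 0 < √((n : ℝ) + 1) := Real.sqrt_pos.2 (by positivity)
      rw [norm_mul, norm_pow, div_mul_eq_mul_div, le_div_iff₀ this]
      exact le_of_eq (by ring)
    have h5 := Finset.sum_mul_sq_le_sq_mul_sq (Finset.range N)
      (fun n : ℕ => ‖a n‖ / √((n : ℝ) + 1)) (fun n : ℕ => √((n : ℝ) + 1) * ‖z‖ ^ n)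
    have h6 : ∑ n ∈ Finset.range N, (‖a n‖ / √((n : ℝ) + 1)) ^ 2 ≤ sq u 1 := by
      have h7 := sum_le_hasSum (Finset.range N) (fun n _ => by positivity) h1
      refine le_trans (le_of_eq (Finset.sum_congr rfl fun n _ => ?_)) h7
      rw [div_pow, Real.sq_sqrt (by positivity), one_pow]
      ring
    have h8 : ∑ n ∈ Finset.range N, (√((n : ℝ) + 1) * ‖z‖ ^ n) ^ 2 ≤
        1 + ∑' n : ℕ, ((n : ℝ) + 1) * (‖z‖ ^ 2) ^ n := by
      have h7 := hs.sum_le_tsum (Finset.range N) (fun n _ => by positivity)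
      refine le_trans (le_of_eq (Finset.sum_congr rfl fun n _ => ?_)) (h7.trans (by linarith))
      rw [mul_pow, Real.sq_sqrt (by positivity)]
      ring
    calc ‖∑ n ∈ Finset.range N, a n * z ^ n‖ ^ 2 ≤
        (∑ n ∈ Finset.range N, (‖a n‖ / √((n : ℝ) + 1)) * (√((n : ℝ) + 1) * ‖z‖ ^ n)) ^ 2 :=
          pow_le_pow_left₀ (norm_nonneg _) h4 2
      _ ≤ _ := h5
      _ ≤ sq u 1 * (1 + ∑' n : ℕ, ((n : ℝ) + 1) * (‖z‖ ^ 2) ^ n) :=
          mul_le_mul h6 h8 (Finset.sum_nonneg fun n _ => by positivity) (sq_nonneg' u 1)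
      _ = _ := mul_comm _ _

/-- the parallelogram law -/
theorem sq_para {u v : ℂ → ℂ} (hu : ContinuousOn u (ball 0 1)) (hv : ContinuousOn v (ball 0 1))
    (hui : IntegrableOn (fun z => ‖u z‖ ^ 2) (ball 0 1))
    (hvi : IntegrableOn (fun z => ‖v z‖ ^ 2) (ball 0 1)) :
    sq (fun z => u z + v z) 1 + sq (fun z => u z - v z) 1 = 2 * (sq u 1 + sq v 1) := by
  have hp := int_add hu hv hui hvi
  have hm : IntegrableOn (fun z => ‖u z - v z‖ ^ 2) (ball 0 1) := by
    have h2 := int_add hu hv.neg hui (by simpa only [Pi.neg_apply, norm_neg] using hvi)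
    simpa only [Pi.neg_apply, ← sub_eq_add_neg] using h2
  unfold Pool.Agent.Helper23.KB.sq
  have h : ∫ z in ball (0 : ℂ) 1, (‖u z + v z‖ ^ 2 + ‖u z - v z‖ ^ 2) =
      ∫ z in ball (0 : ℂ) 1, (2 * ‖u z‖ ^ 2 + 2 * ‖v z‖ ^ 2) := by
    refine setIntegral_congr_fun measurableSet_ball fun z _ => ?_
    have := parallelogram_law_with_norm ℝ (u z) (v z)
    show ‖u z + v z‖ ^ 2 + ‖u z - v z‖ ^ 2 = 2 * ‖u z‖ ^ 2 + 2 * ‖v z‖ ^ 2
    linear_combination this
  rw [integral_add hp hm, integral_add (hui.const_mul 2) (hvi.const_mul 2), integral_const_mul,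
    integral_const_mul] at h
  linear_combination Real.pi⁻¹ * h

/-- There is no gap between `|f|` and `F |g|` near a point of the unit circle. -/
theorem bdry {c : ℝ} (h0 : 0 < c) (h1 : c < 1) {f g : ℂ → ℂ} (h : Ext c f g) {ζ : ℂ}
    (hζ : ‖ζ‖ = 1) {γ r : ℝ} (hγ : 0 < γ) (hr : 0 < r)
    (hgap : ∀ z : ℂ, c ≤ ‖z‖ → ‖z‖ < 1 → ‖z - ζ‖ < r → ‖f z‖ ≤ (1 - γ) * KF c * ‖g z‖) :
    False := by
  have hF := kf_pos' h0 h1
  set w : ℂ := (starRingEnd ℂ) ζ with hw
  have hwζ : w * ζ = 1 := by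
    rw [hw, mul_comm, Complex.mul_conj, Complex.normSq_eq_norm_sq, hζ]
    norm_num
  have hwn : ‖w‖ = 1 := by rw [hw, RCLike.norm_conj, hζ]
  -- the peaking function
  set b : ℂ → ℂ := fun z => (1 + w * z) / 2 with hb
  set q : ℝ := √(1 - r ^ 2 / 4) with hq
  have hq0 : 0 ≤ q := Real.sqrt_nonneg _
  have hq1 : q < 1 := by
    rw [hq, Real.sqrt_lt' one_pos]
    nlinarith
  have hwz : ∀ z : ℂ, ‖w * z - 1‖ = ‖z - ζ‖ := by
    intro z
    have : w * z - 1 = w * (z - ζ) := by rw [mul_sub, hwζ]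
    rw [this, norm_mul, hwn, one_mul]
  have hbsq : ∀ z : ℂ, ‖z‖ ≤ 1 → ‖b z‖ ^ 2 ≤ 1 - ‖z - ζ‖ ^ 2 / 4 := by
    intro z hz
    have h2 := parallelogram_law_with_norm ℝ (1 : ℂ) (w * z)
    have h3 : ‖(1 : ℂ) - w * z‖ = ‖z - ζ‖ := by rw [norm_sub_rev, hwz]
    have h4 : ‖b z‖ = ‖1 + w * z‖ / 2 := by
      rw [hb]
      simp only [norm_div, Complex.norm_ofNat]
    have h5 : ‖w * z‖ = ‖z‖ := by rw [norm_mul, hwn, one_mul]
    rw [h3, h5, norm_one] at h2
    rw [h4]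
    nlinarith [norm_nonneg z]
  have hb1 : ∀ z : ℂ, ‖z‖ ≤ 1 → ‖b z‖ ≤ 1 := by
    intro z hz
    have := hbsq z hz
    nlinarith [norm_nonneg (b z), sq_nonneg ‖z - ζ‖]
  have hbq : ∀ z : ℂ, ‖z‖ ≤ 1 → r ≤ ‖z - ζ‖ → ‖b z‖ ≤ q := by
    intro z hz hzr
    refine Real.le_sqrt_of_sq_le ((hbsq z hz).trans ?_)
    nlinarith
  -- a point where the peaking function is large and `f` does not vanish
  obtain ⟨z₁, hz₁, hz₁q, hz₁f⟩ : ∃ z₁ : ℂ, ‖z₁‖ < 1 ∧ q < ‖b z₁‖ ^ 2 ∧ f z₁ ≠ 0 := by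
    have hbc : Continuous fun z : ℂ => ‖b z‖ ^ 2 := by
      rw [hb]
      fun_prop
    have ho : IsOpen {z : ℂ | q < ‖b z‖ ^ 2} := isOpen_lt continuous_const hbc
    have hζm : ζ ∈ {z : ℂ | q < ‖b z‖ ^ 2} := by
      show q < ‖b ζ‖ ^ 2
      have : b ζ = 1 := by
        rw [hb]
        simp only [hwζ]
        norm_num
      rw [this, norm_one, one_pow]
      exact hq1
    have hζc : ζ ∈ closure (ball (0 : ℂ) 1) := by
      rw [closure_ball _ one_ne_zero, mem_closedBall_zero_iff, hζ]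
    obtain ⟨x, hx1, hx2⟩ := mem_closure_iff.1 hζc _ ho hζm
    by_contra hcon
    push Not at hcon
    have hfan : AnalyticOnNhd ℂ f (ball 0 1) := h.1.1.analyticOnNhd isOpen_ball
    have he : f =ᶠ[𝓝 x] 0 := by
      filter_upwards [ho.mem_nhds hx1, isOpen_ball.mem_nhds hx2] with y hy1 hy2
      exact hcon y (mem_ball_zero_iff.1 hy2) hy1
    obtain ⟨y, hy, hy0⟩ := sph_ne h.1
    exact hy0 (hfan.eqOn_zero_of_preconnected_of_eventuallyEq_zero
      (convex_ball (0 : ℂ) 1).isPreconnected hx2 he hy)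
  obtain ⟨K, hK, hev⟩ := eval_bound hz₁
  set x : ℝ := ‖b z₁‖ ^ 2 with hx
  have hx0 : 0 < x := hq0.trans_lt hz₁q
  -- the main inequality
  have key : ∀ N : ℕ, γ ^ 2 * (x ^ N * ‖f z₁‖ ^ 2) ≤ K * ((2 * γ + γ ^ 2) * q ^ N) := by
    intro N
    set P : ℂ[X] := ((1 + C w * X) * C (1 / 2)) ^ N with hP
    have hPe : ∀ z : ℂ, P.eval z = b z ^ N := by
      intro z
      rw [hP, hb]
      simp only [eval_pow, eval_mul, eval_add, eval_one, eval_C, eval_X]
      ring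
    have hfc : ContinuousOn f (ball 0 1) := h.1.1.continuousOn
    have hPd : DifferentiableOn ℂ (fun z => P.eval z * f z) (ball 0 1) :=
      (Polynomial.differentiable _).differentiableOn.mul h.1.1
    have hPi := int_mul hfc h.1.2.1 P
    -- the two competitors
    have comp : ∀ s : ℝ, |s| = γ →
        sq (fun z => f z + (s : ℂ) * (P.eval z * f z)) 1 ≤ (1 + γ * q ^ N) ^ 2 := by
      intro s hs
      have hd : DifferentiableOn ℂ (fun z => f z + (s : ℂ) * (P.eval z * f z)) (ball 0 1) :=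
        h.1.1.add (hPd.const_mul _)
      have hi : IntegrableOn (fun z => ‖f z + (s : ℂ) * (P.eval z * f z)‖ ^ 2) (ball 0 1) := by
        refine int_add (v := fun z => (s : ℂ) * (P.eval z * f z)) hfc
          (hPd.continuousOn.const_smul (s : ℂ)) h.1.2.1 ?_
        have h2 : (fun z : ℂ => ‖(s : ℂ) * (P.eval z * f z)‖ ^ 2) =
            fun z => s ^ 2 * ‖P.eval z * f z‖ ^ 2 := by
          funext z
          rw [norm_mul, Complex.norm_real, mul_pow, Real.norm_eq_abs, sq_abs]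
        rw [h2]
        exact hPi.const_mul _
      have hdom : Dom c (KF c * (1 + γ * q ^ N))
          (fun z => f z + (s : ℂ) * (P.eval z * f z)) g := by
        intro z hz hz1
        have e : f z + (s : ℂ) * (P.eval z * f z) = (1 + (s : ℂ) * b z ^ N) * f z := by
          rw [hPe]
          ring
        have n1 : ‖1 + (s : ℂ) * b z ^ N‖ ≤ 1 + γ * ‖b z‖ ^ N := by
          refine (norm_add_le _ _).trans (le_of_eq ?_)
          rw [norm_one, norm_mul, norm_pow, Complex.norm_real, Real.norm_eq_abs, hs]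
        have hfz := h.2.2 z hz hz1
        show ‖f z + (s : ℂ) * (P.eval z * f z)‖ ≤ _
        rw [e, norm_mul]
        by_cases hzr : ‖z - ζ‖ < r
        · have h2 := hgap z hz hz1 hzr
          have hb2 : ‖b z‖ ^ N ≤ 1 := pow_le_one₀ (norm_nonneg _) (hb1 z hz1.le)
          have hb3 : 0 ≤ ‖b z‖ ^ N := by positivity
          have hFg : 0 ≤ KF c * ‖g z‖ := by positivity
          have hqN : 0 ≤ q ^ N := by positivity
          calc ‖1 + (s : ℂ) * b z ^ N‖ * ‖f z‖ ≤ (1 + γ * ‖b z‖ ^ N) *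
                ((1 - γ) * KF c * ‖g z‖) :=
                mul_le_mul n1 h2 (norm_nonneg _) (by positivity)
            _ = ((1 + γ * ‖b z‖ ^ N) * (1 - γ)) * (KF c * ‖g z‖) := by ring
            _ ≤ (1 + γ * q ^ N) * (KF c * ‖g z‖) := by
                refine mul_le_mul_of_nonneg_right ?_ hFg
                have : 0 ≤ γ * q ^ N := by positivity
                nlinarith [mul_nonneg hγ.le (sub_nonneg.2 hb2), mul_nonneg (sq_nonneg γ) hb3]
            _ = KF c * (1 + γ * q ^ N) * ‖g z‖ := by ring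
        · have h2 := hbq z hz1.le (not_lt.1 hzr)
          have h3 : ‖b z‖ ^ N ≤ q ^ N := pow_le_pow_left₀ (norm_nonneg _) h2 N
          calc ‖1 + (s : ℂ) * b z ^ N‖ * ‖f z‖ ≤ (1 + γ * q ^ N) * (KF c * ‖g z‖) := by
                refine mul_le_mul (n1.trans ?_) hfz (norm_nonneg _) (by positivity)
                have := mul_le_mul_of_nonneg_left h3 hγ.le
                linarith
            _ = KF c * (1 + γ * q ^ N) * ‖g z‖ := by ring
      have h3 := dom_norm h0 h1 (by positivity) hd hi h.2.1.1 h.2.1.2.1 hdom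
      have h4 : sq g 1 = 1 := h.2.1.2.2
      rw [h4, mul_one, mul_pow] at h3
      exact le_of_mul_le_mul_left h3 (by positivity)
    have c1 := comp γ (abs_of_pos hγ)
    have c2 := comp (-γ) (by rw [abs_neg, abs_of_pos hγ])
    have hvi : IntegrableOn (fun z => ‖(γ : ℂ) * (P.eval z * f z)‖ ^ 2) (ball 0 1) := by
      have h2 : (fun z : ℂ => ‖(γ : ℂ) * (P.eval z * f z)‖ ^ 2) =
          fun z => γ ^ 2 * ‖P.eval z * f z‖ ^ 2 := by
        funext z
        rw [norm_mul, Complex.norm_real, mul_pow, Real.norm_eq_abs, sq_abs]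
      rw [h2]
      exact hPi.const_mul _
    have hpar := sq_para (v := fun z => (γ : ℂ) * (P.eval z * f z)) hfc
      (hPd.continuousOn.const_smul (γ : ℂ)) h.1.2.1 hvi
    have e2 : sq (fun z => f z - (γ : ℂ) * (P.eval z * f z)) 1 =
        sq (fun z => f z + ((-γ : ℝ) : ℂ) * (P.eval z * f z)) 1 := by
      refine sq_congr fun z _ => ?_
      push_cast
      ring
    have e3 : sq (fun z => (γ : ℂ) * (P.eval z * f z)) 1 =
        γ ^ 2 * sq (fun z => P.eval z * f z) 1 := sq_smul γ _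
    have e4 : sq f 1 = 1 := h.1.2.2
    rw [e2, e3, e4] at hpar
    have h5 := hev (fun z => P.eval z * f z) hPd hPi
    have h6 : ‖P.eval z₁ * f z₁‖ ^ 2 = x ^ N * ‖f z₁‖ ^ 2 := by
      rw [hPe, norm_mul, norm_pow, mul_pow, hx]
      ring
    rw [h6] at h5
    have hqN : 0 ≤ q ^ N := by positivity
    have hqN1 : q ^ N ≤ 1 := pow_le_one₀ hq0 hq1.le
    have h7 : γ ^ 2 * sq (fun z => P.eval z * f z) 1 ≤ (2 * γ + γ ^ 2) * q ^ N := by
      nlinarith [mul_nonneg (sq_nonneg γ) (mul_nonneg hqN (sub_nonneg.2 hqN1))]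
    calc γ ^ 2 * (x ^ N * ‖f z₁‖ ^ 2) ≤ γ ^ 2 * (K * sq (fun z => P.eval z * f z) 1) :=
          mul_le_mul_of_nonneg_left h5 (by positivity)
      _ = K * (γ ^ 2 * sq (fun z => P.eval z * f z) 1) := by ring
      _ ≤ K * ((2 * γ + γ ^ 2) * q ^ N) := mul_le_mul_of_nonneg_left h7 hK.le
  -- conclusion
  have hlim : Tendsto (fun N : ℕ => K * (2 * γ + γ ^ 2) * (q / x) ^ N) atTop (𝓝 0) := by
    have h2 := tendsto_pow_atTop_nhds_zero_of_lt_one (div_nonneg hq0 hx0.le)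
      ((div_lt_one hx0).2 hz₁q)
    have h3 := h2.const_mul (K * (2 * γ + γ ^ 2))
    rwa [mul_zero] at h3
  have h3 : ∀ N : ℕ, γ ^ 2 * ‖f z₁‖ ^ 2 ≤ K * (2 * γ + γ ^ 2) * (q / x) ^ N := by
    intro N
    have h4 := key N
    rw [div_pow, mul_div_assoc', le_div_iff₀ (by positivity)]
    calc γ ^ 2 * ‖f z₁‖ ^ 2 * x ^ N = γ ^ 2 * (x ^ N * ‖f z₁‖ ^ 2) := by ring
      _ ≤ _ := h4
      _ = _ := by ring
  have h4 := ge_of_tendsto' hlim h3
  have h5 : 0 < γ ^ 2 * ‖f z₁‖ ^ 2 := by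
    have := norm_pos_iff.2 hz₁f
    positivity
  linarith

end Pool.Agent.Helper23.KU
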