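import Pool.Agent.Helper23.KB.Shape3

/-!
# KU: definitions
-/

set_option autoImplicit false

namespace Pool.Agent.Helper23.KU

open Polynomial

noncomputable section

/-- The function `f` has the Taylor series `Y` in the unit disc. -/
def TS (f : ℂ → ℂ) (Y : PowerSeries ℂ) : Prop :=
  Pool.Agent.Helper21.IM.PS f fun n => PowerSeries.coeff n Y

/-- The inner product of the Bergman space of a polynomial with a power series:
`ip Y P` is the sum of `P_n * conj Y_n / (n + 1)`. -/
def ip (Y : PowerSeries ℂ) : ℂ[X] →ₗ[ℂ] ℂ :=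
  Polynomial.lsum fun n =>
    ((starRingEnd ℂ) (PowerSeries.coeff n Y) / ((n : ℂ) + 1)) • (LinearMap.id : ℂ →ₗ[ℂ] ℂ)

theorem ip_monomial (Y : PowerSeries ℂ) (n : ℕ) (b : ℂ) :
    ip Y (monomial n b) = (starRingEnd ℂ) (PowerSeries.coeff n Y) / ((n : ℂ) + 1) * b := by
  simp [ip, Polynomial.lsum_apply]

/-- The reversed conjugate polynomial `z ^ d * conj (a (1 / conj z))`. -/
def rv (d : ℕ) (a : ℂ[X]) : ℂ[X] := (a.map (starRingEnd ℂ)).reflect d

end

end Pool.Agent.Helper23.KU
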