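import Pool.Agent.Helper23.KU.Bdry
import Pool.Agent.Helper33.KU.Uni
import Pool.Agent.Helper33.KU.Core

/-!
# KU: the final theorem
-/

set_option autoImplicit false

namespace Pool.Agent.Helper23.KU

open Polynomial Filter Topology Metric MeasureTheory Set
open Pool.Agent.Helper23.KB (Sph Dom KF Ext sq area_series ms_series kf_le kf_dn kf_nonneg int_cont)
open Pool.Agent.Helper21.IM (PS ps_exists ps_diff ps_mul ps_add ps_congr ps_unique)

/-- a polynomial identity from an identity of functions -/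
theorem poly_id {a b : ℂ[X]} {Y : ℂ → ℂ} (hY : DifferentiableOn ℂ Y (ball 0 1))
    (hY0 : ∃ z ∈ ball (0 : ℂ) 1, Y z ≠ 0)
    (h : ∀ z ∈ ball (0 : ℂ) 1, a.eval z * Y z = b.eval z * Y z) : a = b := by
  obtain ⟨X, hX⟩ := ts_exists hY
  have h1 := ts_mul (ts_poly a) hX
  have h2 := ts_mul (ts_poly b) hX
  have h3 := ts_inj (ts_congr h1 h) h2
  have h4 : X ≠ 0 := by
    intro h5
    obtain ⟨z, hz, hz0⟩ := hY0
    refine hz0 ?_
    have h6 := hX z hz
    simp only [h5, map_zero, zero_mul] at h6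
    exact h6.unique hasSum_zero
  exact Polynomial.coe_injective ℂ (mul_right_cancel₀ h4 h3)

/-- the identity on the circle for the numerators of the triple form -/
theorem uni3 {c : ℝ} (h0 : 0 < c) (h1 : c < 1) {f g Y : ℂ → ℂ} (h : Ext c f g)
    {p q a b : ℂ[X]} (hq : q ≠ 0)
    (hpq : ∀ z ∈ ball (0 : ℂ) 1, q.eval z * f z = p.eval z * g z)
    (hY : DifferentiableOn ℂ Y (ball 0 1))
    (hf : ∀ z ∈ ball (0 : ℂ) 1, f z = b.eval z * Y z)
    (hg : ∀ z ∈ ball (0 : ℂ) 1, g z = a.eval z * Y z) {d : ℕ} (ha : a.natDegree ≤ d)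
    (hb : b.natDegree ≤ d) :
    b * rv d b = C ((KF c : ℂ) ^ 2) * (a * rv d a) := by
  obtain ⟨p', q', Y', hco, hY', hYi', hf', hg'⟩ :=
    pair_form h.1.1 h.2.1.1 h.1.2.1 h.2.1.2.1 hq hpq
  have hq' : q' ≠ 0 := by
    intro h2
    obtain ⟨z, hz, hz0⟩ := sph_ne h.2.1
    refine hz0 ?_
    rw [hg' z hz, h2, eval_zero, zero_mul]
  have hY0 : ∃ z ∈ ball (0 : ℂ) 1, Y z ≠ 0 := by
    obtain ⟨z, hz, hz0⟩ := sph_ne h.1
    exact ⟨z, hz, fun h2 => hz0 (by rw [hf z hz, h2, mul_zero])⟩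
  have hrel : q' * b = p' * a := by
    refine poly_id hY hY0 fun z hz => ?_
    have h2 := hf z hz
    have h3 := hg z hz
    have h4 := hf' z hz
    have h5 := hg' z hz
    rw [eval_mul, eval_mul]
    linear_combination (-q'.eval z) * h2 + p'.eval z * h3 + q'.eval z * h4 - p'.eval z * h5
  set e := max p'.natDegree q'.natDegree with he
  have hu := unimod h0 h1 h hco hY' hYi' hf' hg' (d := e) (le_max_left _ _) (le_max_right _ _)
  have k1 := rv_mul (le_max_right _ _ : q'.natDegree ≤ e) hb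
  have k2 := rv_mul (le_max_left _ _ : p'.natDegree ≤ e) ha
  rw [hrel, k2] at k1
  have h6 : q' * rv e q' ≠ 0 := mul_ne_zero hq' (rv_ne hq')
  refine mul_left_cancel₀ h6 ?_
  calc q' * rv e q' * (b * rv d b) = (q' * b) * (rv e q' * rv d b) := by ring
    _ = (p' * a) * (rv e p' * rv d a) := by rw [hrel, k1]
    _ = (p' * rv e p') * (a * rv d a) := by ring
    _ = q' * rv e q' * (C ((KF c : ℂ) ^ 2) * (a * rv d a)) := by rw [hu]; ring

/-- the order of a zero of a product with a polynomial -/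
theorem ord_mul {Y g : ℂ → ℂ} {a : ℂ[X]} (ha : a ≠ 0) {z₀ : ℂ} (hz : z₀ ∈ ball (0 : ℂ) 1)
    (hY : DifferentiableOn ℂ Y (ball 0 1)) (hg : ∀ z ∈ ball (0 : ℂ) 1, g z = a.eval z * Y z) :
    analyticOrderAt g z₀ = a.rootMultiplicity z₀ + analyticOrderAt Y z₀ := by
  have hYa : AnalyticAt ℂ Y z₀ := hY.analyticAt (isOpen_ball.mem_nhds hz)
  have pan : ∀ b : ℂ[X], AnalyticAt ℂ (fun z : ℂ => b.eval z) z₀ := fun b =>
    (Polynomial.differentiable b).analyticAt z₀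
  have hpa := pan a
  have h1 : g =ᶠ[𝓝 z₀] (fun z => a.eval z) * Y := by
    filter_upwards [isOpen_ball.mem_nhds hz] with z hz'
    exact hg z hz'
  rw [analyticOrderAt_congr h1, analyticOrderAt_mul hpa hYa]
  congr 1
  rw [hpa.analyticOrderAt_eq_natCast]
  refine ⟨fun z => (a /ₘ (X - C z₀) ^ a.rootMultiplicity z₀).eval z, pan _, ?_, ?_⟩
  · exact eval_divByMonic_pow_rootMultiplicity_ne_zero z₀ ha
  · refine Eventually.of_forall fun z => ?_
    have h2 := congrArg (Polynomial.eval z) (pow_mul_divByMonic_rootMultiplicity_eq a z₀)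
    rw [eval_mul, eval_pow, eval_sub, eval_X, eval_C] at h2
    rw [smul_eq_mul]
    exact h2.symm

theorem final {c : ℝ} (h0 : 0 < c) (h1 : c < 1) (hF : KF c < 1) {f g₁ g₂ : ℂ → ℂ}
    (E₁ : Ext c f g₁) (E₂ : Ext c f g₂) {p₁ q₁ p₂ q₂ : ℂ[X]} (hq₁ : q₁ ≠ 0) (hq₂ : q₂ ≠ 0)
    (r₁ : ∀ z ∈ ball (0 : ℂ) 1, q₁.eval z * f z = p₁.eval z * g₁ z)
    (r₂ : ∀ z ∈ ball (0 : ℂ) 1, q₂.eval z * f z = p₂.eval z * g₂ z) :
    (∃ κ : ℂ, ‖κ‖ = 1 ∧ ∀ z ∈ ball (0 : ℂ) 1, g₂ z = κ * g₁ z) ∨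
    ∃ (z₀ : ℂ) (k m : ℕ), ‖z₀‖ < c ∧ 1 ≤ k ∧ 1 ≤ m ∧ KF c ^ 2 * (k + m) = k ∧
      analyticOrderAt f z₀ ≠ ⊤ ∧
      analyticOrderAt g₁ z₀ = analyticOrderAt f z₀ + m ∧
      analyticOrderAt g₂ z₀ = analyticOrderAt f z₀ + m := by
  have hFp := kf_pos' h0 h1
  have ht0 : (0 : ℝ) < KF c ^ 2 := by positivity
  have ht1 : KF c ^ 2 < 1 := by nlinarith
  have htc : ((KF c : ℂ) ^ 2) ≠ 0 := by
    rw [← Complex.ofReal_pow]
    exact Complex.ofReal_ne_zero.2 ht0.ne'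
  -- the numerators are not zero
  have np : ∀ {g : ℂ → ℂ} {p q : ℂ[X]}, q ≠ 0 →
      (∀ z ∈ ball (0 : ℂ) 1, q.eval z * f z = p.eval z * g z) → p ≠ 0 := by
    intro g p q hq hr h2
    obtain ⟨z, hz, hz0⟩ := sph_ne E₁.1
    refine hz0 ?_
    refine cancel hq E₁.1.1 (v := fun _ => 0) (differentiableOn_const _) (fun w hw => ?_) z hz
    rw [hr w hw, h2, eval_zero, zero_mul, mul_zero]
  obtain ⟨a₁, a₂, a₃, u, v, w, Y, huv, n₁, n₂, n₃, s₁, s₂, hY, hYi, hf, hg₁, hg₂⟩ :=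
    triple_form E₁.1.1 E₁.2.1.1 E₂.2.1.1 E₁.1.2.1 E₁.2.1.2.1 E₂.2.1.2.1 hq₁ hq₂
      (np hq₁ r₁) (np hq₂ r₂) r₁ r₂
  obtain ⟨X, hX⟩ := ts_exists hY
  set d := max a₁.natDegree (max a₂.natDegree a₃.natDegree) with hd
  have d₁ : a₁.natDegree ≤ d := le_max_left _ _
  have d₂ : a₂.natDegree ≤ d := (le_max_left _ _).trans (le_max_right _ _)
  have d₃ : a₃.natDegree ≤ d := (le_max_right _ _).trans (le_max_right _ _)
  have u₁ := uni3 h0 h1 E₁ hq₁ r₁ hY hf hg₁ d₁ d₃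
  have u₂ := uni3 h0 h1 E₂ hq₂ r₂ hY hf hg₂ d₂ d₃
  have u₃ : a₂ * rv d a₂ = C 1 * (a₁ * rv d a₁) := by
    rw [u₁] at u₂
    rw [map_one, one_mul]
    exact (mul_left_cancel₀ (C_ne_zero.2 htc) u₂).symm
  by_cases hE : derivative a₁ * a₂ - a₁ * derivative a₂ = 0
  · left
    obtain ⟨κ, hκ⟩ := prop_of_wronskian n₁ hE
    have hk : ∀ z ∈ ball (0 : ℂ) 1, g₂ z = κ * g₁ z := by
      intro z hz
      rw [hg₂ z hz, hg₁ z hz, hκ, eval_mul, eval_C]
      ring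
    refine ⟨κ, ?_, hk⟩
    have h2 := E₂.2.1.2.2
    have h3 := E₁.2.1.2.2
    rw [setIntegral_congr_fun (g := fun z => ‖κ‖ ^ 2 * ‖g₁ z‖ ^ 2) measurableSet_ball
      (fun z hz => by
        show ‖g₂ z‖ ^ 2 = _
        rw [hk z hz, norm_mul, mul_pow]), integral_const_mul, ← mul_assoc,
      mul_comm _ (‖κ‖ ^ 2), mul_assoc, h3, mul_one] at h2
    have h4 := norm_nonneg κ
    nlinarith
  · right
    set A : ℂ[X] →ₗ[ℂ] ℂ[X] := LinearMap.mulLeft ℂ a₁ with hA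
    set L : ℂ[X] → ℂ[X] →ₗ[ℂ] ℂ := fun a => ip ((a : PowerSeries ℂ) * X) with hL
    have e₂ : ∀ P, L a₂ (a₂ * P) = ((L a₁).comp A) P := by
      intro P
      show ip ((a₂ : PowerSeries ℂ) * X) (a₂ * P) = ip ((a₁ : PowerSeries ℂ) * X) (a₁ * P)
      rw [stat h0 h1 E₂ hYi hf hg₂ hX, stat h0 h1 E₁ hYi hf hg₁ hX]
    have e₃ : ∀ P, L a₃ (a₃ * P) = ((L a₁).comp A) P := by
      intro P
      show ip ((a₃ : PowerSeries ℂ) * X) (a₃ * P) = ip ((a₁ : PowerSeries ℂ) * X) (a₁ * P)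
      rw [stat h0 h1 E₁ hYi hf hg₁ hX]
    have k₂ : ∀ P, L a₂ (derivative (a₂ * P)) =
        (((L a₁).comp derivative).comp A) P := by
      intro P
      have := ip_deriv d₂ d₁ u₃ P X
      rw [one_mul] at this
      exact this
    have k₃ : ∀ P, L a₃ (derivative (a₃ * P)) =
        ((KF c ^ 2 : ℝ) : ℂ) * (((L a₁).comp derivative).comp A) P := by
      intro P
      have := ip_deriv d₃ d₁ u₁ P X
      rw [Complex.ofReal_pow]
      exact this
    obtain ⟨z₀, hz₀, k, hk, m₁, m₂⟩ := core (l := (L a₁).comp A)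
      (H := ((L a₁).comp derivative).comp A) ht0 (L a₁) (L a₂) (L a₃) (fun P => rfl) e₂ e₃
      (fun P => rfl) k₂ k₃ n₁ n₂ n₃ hE
      (fun z₀ p hz₀ hQ => growth hYi hX a₁ hz₀ hQ)
      (by
        by_contra hcon
        push Not at hcon
        have h2 := dens hYi hX a₁ hcon
        obtain ⟨z, hz, hz0⟩ := sph_ne E₁.2.1
        exact hz0 (by rw [hg₁ z hz, h2 z hz]))
    have q₁₂ : a₁.rootMultiplicity z₀ = a₂.rootMultiplicity z₀ := by
      have h2 : (k : ℝ) + a₁.rootMultiplicity z₀ = k + a₂.rootMultiplicity z₀ :=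
        mul_left_cancel₀ ht0.ne' (m₁.trans m₂.symm)
      exact_mod_cast add_left_cancel h2
    have hlt : a₃.rootMultiplicity z₀ < a₁.rootMultiplicity z₀ := by
      have h2 : (0 : ℝ) < k + a₁.rootMultiplicity z₀ := by positivity
      have h3 : (k : ℝ) + a₃.rootMultiplicity z₀ < k + a₁.rootMultiplicity z₀ := by
        rw [← m₁]
        nlinarith
      exact_mod_cast lt_of_add_lt_add_left h3
    have z₁ : a₁.eval z₀ = 0 := (rootMultiplicity_pos n₁).1 (by omega)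
    have z₂ : a₂.eval z₀ = 0 := (rootMultiplicity_pos n₂).1 (by omega)
    have z₃ : a₃.eval z₀ ≠ 0 := by
      intro z₃
      have := congrArg (Polynomial.eval z₀) huv
      rw [eval_add, eval_add, eval_mul, eval_mul, eval_mul, z₁, z₂, z₃, eval_one] at this
      simp at this
    have m₃ : a₃.rootMultiplicity z₀ = 0 := rootMultiplicity_eq_zero z₃
    have hY0 : ∃ z ∈ ball (0 : ℂ) 1, Y z ≠ 0 := by
      obtain ⟨z, hz, hz0⟩ := sph_ne E₁.1
      exact ⟨z, hz, fun h2 => hz0 (by rw [hf z hz, h2, mul_zero])⟩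
    have hzb : z₀ ∈ ball (0 : ℂ) 1 := by rwa [mem_ball_zero_iff]
    have of := ord_mul n₃ hzb hY hf
    have o₁ := ord_mul n₁ hzb hY hg₁
    have o₂ := ord_mul n₂ hzb hY hg₂
    rw [m₃] at of
    refine ⟨z₀, k, a₁.rootMultiplicity z₀, ?_, hk, by omega, ?_, ?_, ?_, ?_⟩
    · by_contra hcon
      push Not at hcon
      have h2 := poly_dom (F := KF c) h0 hY hY0 (a := a₁) (b := a₃) (fun z hz hz1 => by
        have hzb : z ∈ ball (0 : ℂ) 1 := by rwa [mem_ball_zero_iff]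
        rw [← hf z hzb, ← hg₁ z hzb]
        exact E₁.2.2 z hz hz1) hcon hz₀.le h1
      rw [z₁, norm_zero, mul_zero] at h2
      exact z₃ (norm_le_zero_iff.1 h2)
    · rw [m₁, m₃]
      simp
    · rw [of]
      have hYa : AnalyticOnNhd ℂ Y (ball 0 1) := hY.analyticOnNhd isOpen_ball
      intro h2
      simp only [Nat.cast_zero, zero_add] at h2
      rw [analyticOrderAt_eq_top] at h2
      obtain ⟨x, hx, hx0⟩ := hY0
      exact hx0 (hYa.eqOn_zero_of_preconnected_of_eventuallyEq_zero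
        (convex_ball (0 : ℂ) 1).isPreconnected hzb h2 hx)
    · rw [of, o₁]
      simp [add_comm]
    · rw [of, o₂, q₁₂]
      simp [add_comm]

end Pool.Agent.Helper23.KU
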