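import Pool.Agent.Helper23.KU.ZDefs
import Pool.Agent.Helper54.KU.Near

/-!
# KU: the polynomials with given zeros
-/

set_option autoImplicit false
set_option linter.unusedVariables false

namespace Pool.Agent.Helper23.KU

open Polynomial Filter Topology Metric MeasureTheory Set
open Pool.Agent.Helper23.KB (Sph Dom KF Ext sq)

/-- maximum principle in an annulus -/
theorem max_annulus {c r K : ℝ} {V : Set ℂ} {G : ℂ → ℂ}
    (hV : ∀ z : ℂ, c ≤ ‖z‖ → ‖z‖ ≤ r → z ∈ V) (hVo : IsOpen V) (hG : DifferentiableOn ℂ G V)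
    (h : ∀ z : ℂ, ‖z‖ = c ∨ ‖z‖ = r → ‖G z‖ ≤ K) {z : ℂ} (hz : c ≤ ‖z‖) (hz1 : ‖z‖ ≤ r) :
    ‖G z‖ ≤ K := by
  rcases hz.eq_or_lt with hc | hc
  · exact h z (Or.inl hc.symm)
  rcases hz1.eq_or_lt with hr | hr
  · exact h z (Or.inr hr)
  set U : Set ℂ := ball 0 r \ closedBall 0 c with hU
  have hUo : IsOpen U := isOpen_ball.sdiff isClosed_closedBall
  have hA : IsClosed {z : ℂ | c ≤ ‖z‖ ∧ ‖z‖ ≤ r} :=
    (isClosed_le continuous_const continuous_norm).inter
      (isClosed_le continuous_norm continuous_const)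
  have hcl : closure U ⊆ {z : ℂ | c ≤ ‖z‖ ∧ ‖z‖ ≤ r} := by
    refine closure_minimal ?_ hA
    rintro w ⟨hw1, hw2⟩
    rw [mem_ball_zero_iff] at hw1
    rw [mem_closedBall_zero_iff, not_le] at hw2
    exact ⟨hw2.le, hw1.le⟩
  have hd : DifferentiableOn ℂ G (closure U) := hG.mono fun w hw => hV w (hcl hw).1 (hcl hw).2
  have hfr : ∀ w ∈ frontier U, ‖G w‖ ≤ K := by
    intro w hw
    have hwc := hcl hw.1
    have hwn : w ∉ U := by
      intro h2
      exact hw.2 (by rwa [hUo.interior_eq])
    refine h w ?_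
    by_contra hcon
    push Not at hcon
    refine hwn ⟨?_, ?_⟩
    · rw [mem_ball_zero_iff]
      exact lt_of_le_of_ne hwc.2 hcon.2
    · rw [mem_closedBall_zero_iff, not_le]
      exact lt_of_le_of_ne hwc.1 (Ne.symm hcon.1)
  have hb : Bornology.IsBounded U := isBounded_ball.subset sdiff_subset
  have hzU : z ∈ U := by
    refine ⟨?_, ?_⟩
    · rwa [mem_ball_zero_iff]
    · rw [mem_closedBall_zero_iff, not_le]
      exact hc
  exact Complex.norm_le_of_forall_mem_frontier_norm_le hb hd.diffContOnCl hfr (subset_closure hzU)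

theorem mm_cont (s : Multiset ℂ) : Continuous (mm s) :=
  continuous_multiset_prod (f := fun a z => z - a) (fun a => by fun_prop) s

theorem mr_cont (s : Multiset ℂ) : Continuous (mr s) :=
  continuous_multiset_prod (f := fun a z => 1 - (starRingEnd ℂ) a * z) (fun a => by fun_prop) s

theorem mm_diff (s : Multiset ℂ) : Differentiable ℂ (mm s) := by
  induction s using Multiset.induction_on with
  | empty =>
    have : mm 0 = fun _ => 1 := by
      funext z
      simp [mm]
    rw [this]
    exact differentiable_const _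
  | cons a s ih =>
    have : mm (a ::ₘ s) = fun z => (z - a) * mm s z := by
      funext z
      simp [mm]
    rw [this]
    exact (differentiable_id.sub_const a).mul ih

theorem mr_diff (s : Multiset ℂ) : Differentiable ℂ (mr s) := by
  induction s using Multiset.induction_on with
  | empty =>
    have : mr 0 = fun _ => 1 := by
      funext z
      simp [mr]
    rw [this]
    exact differentiable_const _
  | cons a s ih =>
    have : mr (a ::ₘ s) = fun z => (1 - (starRingEnd ℂ) a * z) * mr s z := by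
      funext z
      simp [mr]
    rw [this]
    exact ((differentiable_id.const_mul _).const_sub 1).mul ih

theorem mm_ne {s : Multiset ℂ} {z : ℂ} (h : ∀ a ∈ s, ‖a‖ < ‖z‖) : mm s z ≠ 0 := by
  rw [mm, Ne, Multiset.prod_eq_zero_iff, Multiset.mem_map]
  rintro ⟨a, ha, h2⟩
  rw [sub_eq_zero] at h2
  have := h a ha
  rw [h2] at this
  exact lt_irrefl _ this

theorem mr_ne {s : Multiset ℂ} (h : ∀ a ∈ s, ‖a‖ < 1) {z : ℂ} (hz : ‖z‖ ≤ 1) : mr s z ≠ 0 := by
  rw [mr, Ne, Multiset.prod_eq_zero_iff, Multiset.mem_map]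
  rintro ⟨a, ha, h2⟩
  have h3 : (starRingEnd ℂ) a * z = 1 := (sub_eq_zero.1 h2).symm
  have h4 := congrArg norm h3
  rw [norm_mul, RCLike.norm_conj, norm_one] at h4
  nlinarith [h a ha, norm_nonneg a, norm_nonneg z]

end Pool.Agent.Helper23.KU
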