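import Pool.Agent.Helper23.KU.Defs

/-!
# KU: norms
-/

set_option autoImplicit false

namespace Pool.Agent.Helper23.KU

open Polynomial Filter Topology Metric MeasureTheory Set
open Pool.Agent.Helper23.KB (Sph Dom KF Ext sq area_series ms_series kf_le kf_dn kf_nonneg int_cont)
open Pool.Agent.Helper21.IM (PS ps_exists ps_diff ps_mul ps_add ps_congr)

theorem sq_nonneg' (f : ℂ → ℂ) (r : ℝ) : 0 ≤ sq f r :=
  mul_nonneg (by positivity) (integral_nonneg fun z => by positivity)

theorem kf_pos' {c : ℝ} (h0 : 0 < c) (h1 : c < 1) : 0 < KF c := by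
  have h := kf_dn h0 h1
  have h2 : 0 < 1 - c ^ 2 := by nlinarith
  rcases (kf_nonneg c).lt_or_eq with h3 | h3
  · exact h3
  · rw [← h3, zero_pow two_ne_zero, zero_mul] at h
    linarith

theorem sq_smul (x : ℝ) (f : ℂ → ℂ) : sq (fun z => (x : ℂ) * f z) 1 = x ^ 2 * sq f 1 := by
  unfold Pool.Agent.Helper23.KB.sq
  have h : (fun z : ℂ => ‖(x : ℂ) * f z‖ ^ 2) = fun z => x ^ 2 * ‖f z‖ ^ 2 := by
    funext z
    rw [norm_mul, Complex.norm_real, mul_pow, Real.norm_eq_abs, sq_abs]
  rw [h, integral_const_mul]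
  ring

/-- normalisation -/
theorem sph_norm {u : ℂ → ℂ} (hu : DifferentiableOn ℂ u (ball 0 1))
    (hi : IntegrableOn (fun z => ‖u z‖ ^ 2) (ball 0 1)) (hp : 0 < sq u 1) :
    Sph fun z => (((√(sq u 1))⁻¹ : ℝ) : ℂ) * u z := by
  refine ⟨hu.const_mul _, ?_, ?_⟩
  · have h : (fun z : ℂ => ‖(((√(sq u 1))⁻¹ : ℝ) : ℂ) * u z‖ ^ 2) =
        fun z => ((√(sq u 1))⁻¹) ^ 2 * ‖u z‖ ^ 2 := by
      funext z
      rw [norm_mul, Complex.norm_real, mul_pow, Real.norm_eq_abs, sq_abs]
    rw [h]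
    exact hi.const_mul _
  · have h := sq_smul ((√(sq u 1))⁻¹) u
    unfold Pool.Agent.Helper23.KB.sq at h ⊢
    rw [h, inv_pow, Real.sq_sqrt]
    · have h2 : Real.pi⁻¹ * ∫ z in ball (0 : ℂ) 1, ‖u z‖ ^ 2 ≠ 0 := hp.ne'
      exact inv_mul_cancel₀ h2
    · exact hp.le

/-- if the norm vanishes, the function vanishes -/
theorem zero_of_sq {v : ℂ → ℂ} (hv : DifferentiableOn ℂ v (ball 0 1))
    (hi : IntegrableOn (fun z => ‖v z‖ ^ 2) (ball 0 1)) (h : sq v 1 = 0) :
    ∀ z ∈ ball (0 : ℂ) 1, v z = 0 := by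
  obtain ⟨b, hb⟩ := ps_exists hv
  have h1 := area_series hb zero_le_one le_rfl hi
  rw [h] at h1
  have h2 := (hasSum_zero_iff_of_nonneg fun k => by positivity).1 h1
  have h3 : ∀ k, b k = 0 := by
    intro k
    have h4 := congrFun h2 k
    simp only [one_pow, Pi.zero_apply] at h4
    have h5 : (0 : ℝ) < 1 / ((k : ℝ) + 1) := by positivity
    rcases mul_eq_zero.1 h4 with h6 | h6
    · exact norm_eq_zero.1 (pow_eq_zero_iff (two_ne_zero)|>.1 h6)
    · exact absurd h6 h5.ne'
  intro z hz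
  have h4 := hb z hz
  simp only [h3, zero_mul] at h4
  exact h4.unique hasSum_zero

/-- if the function vanishes on a circle, its norm vanishes -/
theorem sq_zero_of_circle {u : ℂ → ℂ} (hu : DifferentiableOn ℂ u (ball 0 1))
    (hi : IntegrableOn (fun z => ‖u z‖ ^ 2) (ball 0 1)) {c : ℝ} (h0 : 0 < c) (h1 : c < 1)
    (h : ∀ z : ℂ, ‖z‖ = c → u z = 0) : sq u 1 = 0 := by
  obtain ⟨b, hb⟩ := ps_exists hu
  have h2 := ms_series hb h0.le h1
  have h3 : Pool.Agent.Helper23.KB.ms u c = 0 := by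
    unfold Pool.Agent.Helper23.KB.ms
    have h4 : (fun θ : ℝ => ‖u (circleMap 0 c θ)‖ ^ 2) = fun _ => 0 := by
      funext θ
      rw [h _ (by rw [norm_circleMap_zero, abs_of_pos h0]), norm_zero]
      ring
    rw [h4]
    exact Pool.Agent.Helper23.KB.av_const 0
  rw [h3] at h2
  have h4 := (hasSum_zero_iff_of_nonneg fun k => by positivity).1 h2
  have h5 : ∀ k, b k = 0 := by
    intro k
    have h6 := congrFun h4 k
    simp only [Pi.zero_apply] at h6
    rcases mul_eq_zero.1 h6 with h7 | h7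
    · exact norm_eq_zero.1 (pow_eq_zero_iff (two_ne_zero)|>.1 h7)
    · exact absurd h7 (by positivity)
  have h6 := area_series hb zero_le_one le_rfl hi
  simp only [h5, norm_zero] at h6
  have h7 : (fun k : ℕ => (0 : ℝ) ^ 2 * (1 ^ (2 * k + 2) / ((k : ℝ) + 1))) = fun _ => 0 := by
    funext k
    ring
  rw [h7] at h6
  exact h6.unique hasSum_zero

/-- domination of arbitrary functions of the Bergman space -/
theorem dom_norm {c t : ℝ} (h0 : 0 < c) (h1 : c < 1) (ht : 0 ≤ t) {u v : ℂ → ℂ}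
    (hu : DifferentiableOn ℂ u (ball 0 1)) (hui : IntegrableOn (fun z => ‖u z‖ ^ 2) (ball 0 1))
    (hv : DifferentiableOn ℂ v (ball 0 1)) (hvi : IntegrableOn (fun z => ‖v z‖ ^ 2) (ball 0 1))
    (h : Dom c t u v) : KF c ^ 2 * sq u 1 ≤ t ^ 2 * sq v 1 := by
  rcases (sq_nonneg' u 1).lt_or_eq with hA | hA
  · rcases (sq_nonneg' v 1).lt_or_eq with hB | hB
    · have hsA : 0 < √(sq u 1) := Real.sqrt_pos.2 hA
      have hsB : 0 < √(sq v 1) := Real.sqrt_pos.2 hB
      have h2 : KF c ≤ t * √(sq v 1) / √(sq u 1) := by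
        refine kf_le (by positivity) (sph_norm hu hui hA) (sph_norm hv hvi hB) fun z hz hz1 => ?_
        rw [norm_mul, norm_mul, Complex.norm_real, Complex.norm_real, Real.norm_eq_abs,
          Real.norm_eq_abs, abs_of_pos (inv_pos.2 hsA), abs_of_pos (inv_pos.2 hsB)]
        have h3 := h z hz hz1
        calc (√(sq u 1))⁻¹ * ‖u z‖ ≤ (√(sq u 1))⁻¹ * (t * ‖v z‖) :=
              mul_le_mul_of_nonneg_left h3 (by positivity)
          _ = t * √(sq v 1) / √(sq u 1) * ((√(sq v 1))⁻¹ * ‖v z‖) := by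
              field_simp
      have h3 : KF c ^ 2 ≤ (t * √(sq v 1) / √(sq u 1)) ^ 2 := pow_le_pow_left₀ (kf_nonneg c) h2 2
      rw [div_pow, mul_pow, Real.sq_sqrt hA.le, Real.sq_sqrt hB.le, le_div_iff₀ hA] at h3
      exact h3
    · have h2 := zero_of_sq hv hvi hB.symm
      have h3 : sq u 1 = 0 := by
        refine sq_zero_of_circle hu hui h0 h1 fun z hz => ?_
        have h4 := h z hz.ge (by rw [hz]; exact h1)
        rw [h2 z (by rw [mem_ball_zero_iff, hz]; exact h1), norm_zero, mul_zero] at h4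
        exact norm_le_zero_iff.1 h4
      exact absurd h3 hA.ne'
  · rw [← hA, mul_zero]
    exact mul_nonneg (by positivity) (sq_nonneg' v 1)

/-- a polynomial has its coefficients as Taylor coefficients -/
theorem ts_poly (P : ℂ[X]) : TS (fun z => P.eval z) (P : PowerSeries ℂ) := by
  intro z _
  simp only [Polynomial.coeff_coe]
  have h : HasSum (fun n => P.coeff n * z ^ n)
      (∑ n ∈ Finset.range (P.natDegree + 1), P.coeff n * z ^ n) :=
    hasSum_sum_of_ne_finset_zero fun n hn => by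
      rw [Polynomial.coeff_eq_zero_of_natDegree_lt (by
        rw [Finset.mem_range] at hn
        omega), zero_mul]
  rw [← Polynomial.eval_eq_sum_range] at h
  exact h

theorem ts_mul {f g : ℂ → ℂ} {A B : PowerSeries ℂ} (hf : TS f A) (hg : TS g B) :
    TS (fun z => f z * g z) (A * B) := by
  have h := ps_mul hf hg
  intro z hz
  have h2 := h z hz
  refine h2.congr_fun ?_
  intro n
  simp only [PowerSeries.coeff_mul]
  rfl

theorem int_poly (P : ℂ[X]) : IntegrableOn (fun z : ℂ => ‖P.eval z‖ ^ 2) (ball 0 1) :=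
  int_cont (by fun_prop)

/-- products with polynomials are square integrable -/
theorem int_mul {Y : ℂ → ℂ} (hd : ContinuousOn Y (ball 0 1))
    (hYi : IntegrableOn (fun z => ‖Y z‖ ^ 2) (ball 0 1)) (P : ℂ[X]) :
    IntegrableOn (fun z => ‖P.eval z * Y z‖ ^ 2) (ball 0 1) := by
  obtain ⟨C, hC⟩ := (isCompact_closedBall (0 : ℂ) 1).exists_bound_of_continuousOn
    (f := fun z : ℂ => P.eval z) (by fun_prop)
  refine Integrable.mono' (hYi.const_mul (C ^ 2)) ?_ ?_
  · refine ContinuousOn.aestronglyMeasurable ?_ measurableSet_ball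
    exact ((Polynomial.continuous P).continuousOn.mul hd).norm.pow 2
  · refine (ae_restrict_iff' measurableSet_ball).2 (Eventually.of_forall fun z hz => ?_)
    rw [Real.norm_eq_abs, abs_of_nonneg (by positivity), norm_mul, mul_pow]
    have h1 := hC z (ball_subset_closedBall hz)
    have h2 : ‖P.eval z‖ ^ 2 ≤ C ^ 2 := pow_le_pow_left₀ (norm_nonneg _) h1 2
    exact mul_le_mul_of_nonneg_right h2 (by positivity)

/-- sums are square integrable -/
theorem int_add {u v : ℂ → ℂ} (hu : ContinuousOn u (ball 0 1)) (hv : ContinuousOn v (ball 0 1))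
    (hui : IntegrableOn (fun z => ‖u z‖ ^ 2) (ball 0 1))
    (hvi : IntegrableOn (fun z => ‖v z‖ ^ 2) (ball 0 1)) :
    IntegrableOn (fun z => ‖u z + v z‖ ^ 2) (ball 0 1) := by
  refine Integrable.mono' ((hui.const_mul 2).add (hvi.const_mul 2)) ?_ ?_
  · exact ContinuousOn.aestronglyMeasurable ((hu.add hv).norm.pow 2) measurableSet_ball
  · refine Eventually.of_forall fun z => ?_
    rw [Real.norm_eq_abs, abs_of_nonneg (by positivity)]
    have h1 := norm_add_le (u z) (v z)
    have h2 : ‖u z + v z‖ ^ 2 ≤ (‖u z‖ + ‖v z‖) ^ 2 := pow_le_pow_left₀ (norm_nonneg _) h1 2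
    have h3 := sq_nonneg (‖u z‖ - ‖v z‖)
    simp only [Pi.add_apply]
    nlinarith

/-- the inner product as a sum -/
theorem ip_sum (Y : PowerSeries ℂ) (P : ℂ[X]) :
    ip Y P = ∑ n ∈ P.support, (starRingEnd ℂ) (PowerSeries.coeff n Y) / ((n : ℂ) + 1) * P.coeff n := by
  rw [ip, Polynomial.lsum_apply, Polynomial.sum_def]
  rfl

/-- the norm of a sum -/
theorem exp_norm {f : ℂ → ℂ} {Y : PowerSeries ℂ} (hf : TS f Y)
    (hi : IntegrableOn (fun z => ‖f z‖ ^ 2) (ball 0 1)) (W : ℂ[X]) :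
    sq (fun z => f z + W.eval z) 1 = sq f 1 + 2 * (ip Y W).re + sq (fun z => W.eval z) 1 := by
  have hfc : ContinuousOn f (ball 0 1) := (ps_diff hf).continuousOn
  have hW := ts_poly W
  have hs : TS (fun z => f z + W.eval z) (Y + (W : PowerSeries ℂ)) := by
    intro z hz
    have := ps_add hf hW z hz
    refine this.congr_fun fun n => ?_
    simp only [map_add]
  have h1 := area_series hf zero_le_one le_rfl hi
  have h2 := area_series hW zero_le_one le_rfl (int_poly W)
  have h3 := area_series hs zero_le_one le_rfl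
    (int_add hfc (Polynomial.continuous W).continuousOn hi (int_poly W))
  have h4 : HasSum (fun n : ℕ =>
      ((starRingEnd ℂ) (PowerSeries.coeff n Y) / ((n : ℂ) + 1) * W.coeff n).re * 2)
      (∑ n ∈ W.support,
        ((starRingEnd ℂ) (PowerSeries.coeff n Y) / ((n : ℂ) + 1) * W.coeff n).re * 2) :=
    hasSum_sum_of_ne_finset_zero fun n hn => by
      rw [Polynomial.notMem_support_iff.1 hn, mul_zero, Complex.zero_re, zero_mul]
  have h5 : ∑ n ∈ W.support,
      ((starRingEnd ℂ) (PowerSeries.coeff n Y) / ((n : ℂ) + 1) * W.coeff n).re * 2 =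
        2 * (ip Y W).re := by
    rw [ip_sum, Complex.re_sum, Finset.mul_sum]
    exact Finset.sum_congr rfl fun n _ => mul_comm _ _
  rw [h5] at h4
  have h6 := (h1.add h4).add h2
  refine h3.unique (h6.congr_fun fun n => ?_)
  simp only [map_add, Polynomial.coeff_coe, one_pow]
  set y := PowerSeries.coeff n Y
  set w := W.coeff n
  have h7 : ‖y + w‖ ^ 2 = ‖y‖ ^ 2 + 2 * ((starRingEnd ℂ) y * w).re + ‖w‖ ^ 2 := by
    rw [← Complex.normSq_eq_norm_sq, ← Complex.normSq_eq_norm_sq, ← Complex.normSq_eq_norm_sq,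
      Complex.normSq_apply, Complex.normSq_apply, Complex.normSq_apply]
    simp only [Complex.add_re, Complex.add_im, Complex.mul_re, Complex.conj_re, Complex.conj_im]
    ring
  have h8 : ((starRingEnd ℂ) y / ((n : ℂ) + 1) * w).re = ((starRingEnd ℂ) y * w).re / (n + 1) := by
    have h9 : (starRingEnd ℂ) y / ((n : ℂ) + 1) * w = ((starRingEnd ℂ) y * w) / (((n : ℝ) + 1 : ℝ) : ℂ) := by
      push_cast
      ring
    rw [h9, Complex.div_ofReal_re]
  rw [h7, h8]
  ring

end Pool.Agent.Helper23.KU
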