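import Pool.Agent.Helper23.KU.Bdry

/-!
# KU: peaking functions
-/

set_option autoImplicit false

namespace Pool.Agent.Helper23.KU

open Polynomial Filter Topology Metric MeasureTheory Set
open Pool.Agent.Helper23.KB (Sph Dom KF Ext sq area_series ms_series kf_le kf_dn kf_nonneg int_cont)
open Pool.Agent.Helper21.IM (PS ps_exists ps_diff ps_mul ps_add ps_congr ps_unique)

/-- products with bounded analytic functions are square integrable -/
theorem int_bmul {f b : ℂ → ℂ} (hf : ContinuousOn f (ball 0 1)) (hb : ContinuousOn b (ball 0 1))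
    (hfi : IntegrableOn (fun z => ‖f z‖ ^ 2) (ball 0 1)) (hb1 : ∀ z ∈ ball (0 : ℂ) 1, ‖b z‖ ≤ 1) :
    IntegrableOn (fun z => ‖b z * f z‖ ^ 2) (ball 0 1) := by
  refine Integrable.mono' hfi ?_ ?_
  · exact ContinuousOn.aestronglyMeasurable ((hb.mul hf).norm.pow 2) measurableSet_ball
  · refine (ae_restrict_iff' measurableSet_ball).2 (Eventually.of_forall fun z hz => ?_)
    rw [Real.norm_eq_abs, abs_of_nonneg (by positivity), norm_mul, mul_pow]
    have h1 : ‖b z‖ ^ 2 ≤ 1 := pow_le_one₀ (norm_nonneg _) (hb1 z hz)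
    nlinarith [sq_nonneg ‖f z‖]

/-- There is no function which is small wherever the quotient is close to its bound, and which
peaks somewhere else. -/
theorem peak {c : ℝ} (h0 : 0 < c) (h1 : c < 1) {f g b : ℂ → ℂ} (h : Ext c f g)
    (hb : DifferentiableOn ℂ b (ball 0 1)) (hb1 : ∀ z ∈ ball (0 : ℂ) 1, ‖b z‖ ≤ 1) {γ q : ℝ}
    (hγ : 0 < γ) (hq0 : 0 ≤ q) (hq1 : q < 1)
    (hdom : ∀ z : ℂ, c ≤ ‖z‖ → ‖z‖ < 1 → ‖b z‖ ≤ q ∨ ‖f z‖ * (1 + γ) ≤ KF c * ‖g z‖)
    (hpk : ∃ z ∈ ball (0 : ℂ) 1, q < ‖b z‖ ^ 2) : False := by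
  have hF := kf_pos' h0 h1
  -- a point where the peaking function is large and `f` does not vanish
  obtain ⟨z₁, hz₁, hz₁q, hz₁f⟩ : ∃ z₁ : ℂ, ‖z₁‖ < 1 ∧ q < ‖b z₁‖ ^ 2 ∧ f z₁ ≠ 0 := by
    obtain ⟨x, hx2, hx1⟩ := hpk
    by_contra hcon
    push Not at hcon
    have hfan : AnalyticOnNhd ℂ f (ball 0 1) := h.1.1.analyticOnNhd isOpen_ball
    have hbx : ContinuousAt (fun z : ℂ => ‖b z‖ ^ 2) x :=
      ((hb.continuousOn.continuousAt (isOpen_ball.mem_nhds hx2)).norm).pow 2
    have he : f =ᶠ[𝓝 x] 0 := by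
      filter_upwards [hbx.eventually (lt_mem_nhds hx1), isOpen_ball.mem_nhds hx2] with y hy1 hy2
      exact hcon y (mem_ball_zero_iff.1 hy2) hy1
    obtain ⟨y, hy, hy0⟩ := sph_ne h.1
    exact hy0 (hfan.eqOn_zero_of_preconnected_of_eventuallyEq_zero
      (convex_ball (0 : ℂ) 1).isPreconnected hx2 he hy)
  obtain ⟨K, hK, hev⟩ := eval_bound hz₁
  set x : ℝ := ‖b z₁‖ ^ 2 with hx
  have hx0 : 0 < x := hq0.trans_lt hz₁q
  -- the main inequality
  have key : ∀ N : ℕ, γ ^ 2 * (x ^ N * ‖f z₁‖ ^ 2) ≤ K * ((2 * γ + γ ^ 2) * q ^ N) := by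
    intro N
    have hfc : ContinuousOn f (ball 0 1) := h.1.1.continuousOn
    have hPd : DifferentiableOn ℂ (fun z => b z ^ N * f z) (ball 0 1) :=
      (hb.pow N).mul h.1.1
    have hPi : IntegrableOn (fun z => ‖b z ^ N * f z‖ ^ 2) (ball 0 1) :=
      int_bmul hfc (hb.continuousOn.pow N) h.1.2.1 fun z hz => by
        rw [norm_pow]
        exact pow_le_one₀ (norm_nonneg _) (hb1 z hz)
    -- the two competitors
    have comp : ∀ s : ℝ, |s| = γ →
        sq (fun z => f z + (s : ℂ) * (b z ^ N * f z)) 1 ≤ (1 + γ * q ^ N) ^ 2 := by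
      intro s hs
      have hd : DifferentiableOn ℂ (fun z => f z + (s : ℂ) * (b z ^ N * f z)) (ball 0 1) :=
        h.1.1.add (hPd.const_mul _)
      have hi : IntegrableOn (fun z => ‖f z + (s : ℂ) * (b z ^ N * f z)‖ ^ 2) (ball 0 1) := by
        refine int_add (v := fun z => (s : ℂ) * (b z ^ N * f z)) hfc
          (hPd.continuousOn.const_smul (s : ℂ)) h.1.2.1 ?_
        have h2 : (fun z : ℂ => ‖(s : ℂ) * (b z ^ N * f z)‖ ^ 2) =
            fun z => s ^ 2 * ‖b z ^ N * f z‖ ^ 2 := by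
          funext z
          rw [norm_mul, Complex.norm_real, mul_pow, Real.norm_eq_abs, sq_abs]
        rw [h2]
        exact hPi.const_mul _
      have hD : Dom c (KF c * (1 + γ * q ^ N))
          (fun z => f z + (s : ℂ) * (b z ^ N * f z)) g := by
        intro z hz hz1
        have hzb : z ∈ ball (0 : ℂ) 1 := by rwa [mem_ball_zero_iff]
        have e : f z + (s : ℂ) * (b z ^ N * f z) = (1 + (s : ℂ) * b z ^ N) * f z := by ring
        have n1 : ‖1 + (s : ℂ) * b z ^ N‖ ≤ 1 + γ * ‖b z‖ ^ N := by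
          refine (norm_add_le _ _).trans (le_of_eq ?_)
          rw [norm_one, norm_mul, norm_pow, Complex.norm_real, Real.norm_eq_abs, hs]
        have hfz := h.2.2 z hz hz1
        have hqN : 0 ≤ γ * q ^ N := by positivity
        have hFg : 0 ≤ KF c * ‖g z‖ := by positivity
        show ‖f z + (s : ℂ) * (b z ^ N * f z)‖ ≤ _
        rw [e, norm_mul]
        rcases hdom z hz hz1 with h2 | h2
        · have h3 : ‖b z‖ ^ N ≤ q ^ N := pow_le_pow_left₀ (norm_nonneg _) h2 N
          calc ‖1 + (s : ℂ) * b z ^ N‖ * ‖f z‖ ≤ (1 + γ * q ^ N) * (KF c * ‖g z‖) := by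
                refine mul_le_mul (n1.trans ?_) hfz (norm_nonneg _) (by positivity)
                have := mul_le_mul_of_nonneg_left h3 hγ.le
                linarith
            _ = KF c * (1 + γ * q ^ N) * ‖g z‖ := by ring
        · have hb2 : ‖b z‖ ^ N ≤ 1 := pow_le_one₀ (norm_nonneg _) (hb1 z hzb)
          calc ‖1 + (s : ℂ) * b z ^ N‖ * ‖f z‖ ≤ (1 + γ) * ‖f z‖ := by
                refine mul_le_mul_of_nonneg_right (n1.trans ?_) (norm_nonneg _)
                have := mul_le_mul_of_nonneg_left hb2 hγ.le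
                linarith
            _ = ‖f z‖ * (1 + γ) := mul_comm _ _
            _ ≤ KF c * ‖g z‖ := h2
            _ ≤ (1 + γ * q ^ N) * (KF c * ‖g z‖) := by nlinarith
            _ = KF c * (1 + γ * q ^ N) * ‖g z‖ := by ring
      have h3 := dom_norm h0 h1 (by positivity) hd hi h.2.1.1 h.2.1.2.1 hD
      have h4 : sq g 1 = 1 := h.2.1.2.2
      rw [h4, mul_one, mul_pow] at h3
      exact le_of_mul_le_mul_left h3 (by positivity)
    have c1 := comp γ (abs_of_pos hγ)
    have c2 := comp (-γ) (by rw [abs_neg, abs_of_pos hγ])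
    have hvi : IntegrableOn (fun z => ‖(γ : ℂ) * (b z ^ N * f z)‖ ^ 2) (ball 0 1) := by
      have h2 : (fun z : ℂ => ‖(γ : ℂ) * (b z ^ N * f z)‖ ^ 2) =
          fun z => γ ^ 2 * ‖b z ^ N * f z‖ ^ 2 := by
        funext z
        rw [norm_mul, Complex.norm_real, mul_pow, Real.norm_eq_abs, sq_abs]
      rw [h2]
      exact hPi.const_mul _
    have hpar := sq_para (v := fun z => (γ : ℂ) * (b z ^ N * f z)) hfc
      (hPd.continuousOn.const_smul (γ : ℂ)) h.1.2.1 hvi
    have e2 : sq (fun z => f z - (γ : ℂ) * (b z ^ N * f z)) 1 =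
        sq (fun z => f z + ((-γ : ℝ) : ℂ) * (b z ^ N * f z)) 1 := by
      refine sq_congr fun z _ => ?_
      push_cast
      ring
    have e3 : sq (fun z => (γ : ℂ) * (b z ^ N * f z)) 1 =
        γ ^ 2 * sq (fun z => b z ^ N * f z) 1 := sq_smul γ _
    have e4 : sq f 1 = 1 := h.1.2.2
    rw [e2, e3, e4] at hpar
    have h5 := hev (fun z => b z ^ N * f z) hPd hPi
    have h6 : ‖b z₁ ^ N * f z₁‖ ^ 2 = x ^ N * ‖f z₁‖ ^ 2 := by
      rw [norm_mul, norm_pow, mul_pow, hx]
      ring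
    rw [h6] at h5
    have hqN : 0 ≤ q ^ N := by positivity
    have hqN1 : q ^ N ≤ 1 := pow_le_one₀ hq0 hq1.le
    have h7 : γ ^ 2 * sq (fun z => b z ^ N * f z) 1 ≤ (2 * γ + γ ^ 2) * q ^ N := by
      nlinarith [mul_nonneg (sq_nonneg γ) (mul_nonneg hqN (sub_nonneg.2 hqN1))]
    calc γ ^ 2 * (x ^ N * ‖f z₁‖ ^ 2) ≤ γ ^ 2 * (K * sq (fun z => b z ^ N * f z) 1) :=
          mul_le_mul_of_nonneg_left h5 (by positivity)
      _ = K * (γ ^ 2 * sq (fun z => b z ^ N * f z) 1) := by ring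
      _ ≤ K * ((2 * γ + γ ^ 2) * q ^ N) := mul_le_mul_of_nonneg_left h7 hK.le
  -- conclusion
  have hlim : Tendsto (fun N : ℕ => K * (2 * γ + γ ^ 2) * (q / x) ^ N) atTop (𝓝 0) := by
    have h2 := tendsto_pow_atTop_nhds_zero_of_lt_one (div_nonneg hq0 hx0.le)
      ((div_lt_one hx0).2 hz₁q)
    have h3 := h2.const_mul (K * (2 * γ + γ ^ 2))
    rwa [mul_zero] at h3
  have h3 : ∀ N : ℕ, γ ^ 2 * ‖f z₁‖ ^ 2 ≤ K * (2 * γ + γ ^ 2) * (q / x) ^ N := by
    intro N
    have h4 := key N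
    rw [div_pow, mul_div_assoc', le_div_iff₀ (by positivity)]
    calc γ ^ 2 * ‖f z₁‖ ^ 2 * x ^ N = γ ^ 2 * (x ^ N * ‖f z₁‖ ^ 2) := by ring
      _ ≤ _ := h4
      _ = _ := by ring
  have h4 := ge_of_tendsto' hlim h3
  have h5 : 0 < γ ^ 2 * ‖f z₁‖ ^ 2 := by
    have := norm_pos_iff.2 hz₁f
    positivity
  linarith

/-- the outer part of the quotient is trivial, in the case of a bounded logarithm -/
theorem strip {c : ℝ} (h0 : 0 < c) (h1 : c < 1) {f g H : ℂ → ℂ} (h : Ext c f g)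
    (hH : DifferentiableOn ℂ H (ball 0 1)) {M : ℝ} (hM : 0 < M)
    (hHM : ∀ z ∈ ball (0 : ℂ) 1, -M < (H z).re ∧ (H z).re ≤ 0)
    (hsup : ∀ δ > 0, ∃ z ∈ ball (0 : ℂ) 1, (H z).re < -M + δ)
    (hdom : ∀ δ > 0, ∃ r < 1, ∀ z : ℂ, r ≤ ‖z‖ → ‖z‖ < 1 →
      ‖f z‖ ≤ KF c * (1 + δ) * Real.exp (H z).re * ‖g z‖) : False := by
  have hF := kf_pos' h0 h1
  have hE : 1 < Real.exp (M / 4) := Real.one_lt_exp_iff.2 (by positivity)
  obtain ⟨r, hr, hd⟩ := hdom (Real.exp (M / 4) - 1) (by linarith)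
  -- a bound on the compact disc
  obtain ⟨κ, hκ0, hκ⟩ : ∃ κ : ℝ, 0 < κ ∧ ∀ z : ℂ, ‖z‖ ≤ r → κ ≤ 1 + (H z).re / M := by
    rcases lt_or_ge r 0 with hr0 | hr0
    · exact ⟨1, one_pos, fun z hz => absurd (norm_nonneg z) (by linarith)⟩
    · have hc : ContinuousOn (fun z : ℂ => 1 + (H z).re / M) (closedBall 0 r) := by
        have h2 : ContinuousOn H (closedBall 0 r) :=
          hH.continuousOn.mono (closedBall_subset_ball hr)
        exact ((Complex.continuous_re.comp_continuousOn h2).div_const M).const_add 1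
      obtain ⟨w, hw, hw2⟩ := (isCompact_closedBall (0 : ℂ) r).exists_isMinOn
        ⟨0, by simpa using hr0⟩ hc
      refine ⟨1 + (H w).re / M, ?_, fun z hz => hw2 (mem_closedBall_zero_iff.2 hz)⟩
      have h2 := (hHM w (closedBall_subset_ball hr hw)).1
      have h3 : -1 < (H w).re / M := by
        rw [lt_div_iff₀ hM]
        linarith
      linarith
  set q : ℝ := max (Real.exp (-1 / 2)) (Real.exp (-κ)) with hq
  have hq0 : 0 ≤ q := le_trans (Real.exp_nonneg _) (le_max_left _ _)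
  have hex : ∀ x : ℝ, x < 0 → Real.exp x < 1 := fun x hx =>
    (Real.exp_lt_exp.2 hx).trans_eq Real.exp_zero
  have hq1 : q < 1 := max_lt (hex _ (by norm_num)) (hex _ (by linarith))
  set b : ℂ → ℂ := fun z => Complex.exp (-(1 + H z / M)) with hb
  have hbn : ∀ z : ℂ, ‖b z‖ = Real.exp (-(1 + (H z).re / M)) := by
    intro z
    rw [hb]
    show ‖Complex.exp (-(1 + H z / M))‖ = _
    rw [Complex.norm_exp]
    congr 1
    rw [Complex.neg_re, Complex.add_re, Complex.one_re, Complex.div_ofReal_re]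
  have hMr : ∀ z ∈ ball (0 : ℂ) 1, 0 < 1 + (H z).re / M := by
    intro z hz
    have h2 := (hHM z hz).1
    have h3 : -1 < (H z).re / M := by
      rw [lt_div_iff₀ hM]
      linarith
    linarith
  refine peak h0 h1 h (b := b) (γ := Real.exp (M / 4) - 1) (q := q) ?_ ?_ (by linarith) hq0 hq1
    ?_ ?_
  · exact (((hH.div_const (M : ℂ)).const_add 1).neg).cexp
  · intro z hz
    rw [hbn]
    exact Real.exp_le_one_iff.2 (by linarith [hMr z hz])
  · intro z hz hz1
    have hzb : z ∈ ball (0 : ℂ) 1 := by rwa [mem_ball_zero_iff]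
    rcases le_or_gt ‖z‖ r with h2 | h2
    · left
      rw [hbn]
      refine le_trans (Real.exp_le_exp.2 ?_) (le_max_right _ _)
      linarith [hκ z h2]
    · rcases le_or_gt (-M / 2) (H z).re with h3 | h3
      · left
        rw [hbn]
        refine le_trans (Real.exp_le_exp.2 ?_) (le_max_left _ _)
        have h4 : -1 / 2 ≤ (H z).re / M := by
          rw [le_div_iff₀ hM]
          linarith
        linarith
      · right
        have h4 := hd z h2.le hz1
        have h5 : Real.exp (H z).re ≤ Real.exp (-M / 2) := Real.exp_le_exp.2 h3.le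
        have h6 : Real.exp (M / 4) * Real.exp (M / 4) * Real.exp (-M / 2) = 1 := by
          rw [← Real.exp_add, ← Real.exp_add, ← Real.exp_zero]
          congr 1
          ring
        have hg0 := norm_nonneg (g z)
        calc ‖f z‖ * (1 + (Real.exp (M / 4) - 1)) ≤
              (KF c * (1 + (Real.exp (M / 4) - 1)) * Real.exp (-M / 2) * ‖g z‖) *
                (1 + (Real.exp (M / 4) - 1)) := by
              refine mul_le_mul_of_nonneg_right (h4.trans ?_) (by linarith)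
              refine mul_le_mul_of_nonneg_right ?_ hg0
              refine mul_le_mul_of_nonneg_left h5 ?_
              have : 0 ≤ 1 + (Real.exp (M / 4) - 1) := by linarith
              positivity
          _ = (Real.exp (M / 4) * Real.exp (M / 4) * Real.exp (-M / 2)) * (KF c * ‖g z‖) := by
              ring
          _ = KF c * ‖g z‖ := by rw [h6, one_mul]
  · -- the peak
    have hl : 0 < -Real.log q / 2 := by
      have h2 : Real.log q < 0 := Real.log_neg (lt_of_lt_of_le (Real.exp_pos _) (le_max_left _ _)) hq1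
      linarith
    obtain ⟨z, hz, hz2⟩ := hsup (M * (-Real.log q / 2)) (by positivity)
    refine ⟨z, hz, ?_⟩
    have hqp : 0 < q := lt_of_lt_of_le (Real.exp_pos _) (le_max_left _ _)
    rw [hbn, ← Real.exp_nat_mul, ← Real.log_lt_iff_lt_exp hqp]
    have h3 : (H z).re / M < -1 + (-Real.log q / 2) := by
      rw [div_lt_iff₀ hM]
      nlinarith
    push_cast
    linarith

end Pool.Agent.Helper23.KU
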