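import Pool.Agent.Helper23.KU.Norm

/-!
# KU: stationarity
-/

set_option autoImplicit false

namespace Pool.Agent.Helper23.KU

open Polynomial Filter Topology Metric MeasureTheory Set
open Pool.Agent.Helper23.KB (Sph Dom KF Ext sq area_series ms_series kf_le kf_dn kf_nonneg int_cont)
open Pool.Agent.Helper21.IM (PS ps_exists ps_diff ps_mul ps_add ps_congr)

theorem sq_congr {u v : ℂ → ℂ} (h : ∀ z ∈ ball (0 : ℂ) 1, u z = v z) : sq u 1 = sq v 1 := by
  unfold Pool.Agent.Helper23.KB.sq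
  have h2 : ∫ z in ball (0 : ℂ) 1, ‖u z‖ ^ 2 = ∫ z in ball (0 : ℂ) 1, ‖v z‖ ^ 2 :=
    setIntegral_congr_fun measurableSet_ball fun z hz => by
      show ‖u z‖ ^ 2 = ‖v z‖ ^ 2
      rw [h z hz]
  rw [h2]

/-- a nonzero factor can be cancelled in an inequality between polynomials -/
theorem poly_dom {c F : ℝ} (h0 : 0 < c) {Y : ℂ → ℂ}
    (hY : DifferentiableOn ℂ Y (ball 0 1)) (hY0 : ∃ z ∈ ball (0 : ℂ) 1, Y z ≠ 0) {a b : ℂ[X]}
    (h : ∀ z : ℂ, c ≤ ‖z‖ → ‖z‖ < 1 → ‖b.eval z * Y z‖ ≤ F * ‖a.eval z * Y z‖) {z : ℂ}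
    (hz : c ≤ ‖z‖) (hz1 : ‖z‖ ≤ 1) (hc1 : c < 1) : ‖b.eval z‖ ≤ F * ‖a.eval z‖ := by
  have han : AnalyticOnNhd ℂ Y (ball 0 1) := hY.analyticOnNhd isOpen_ball
  -- the inequality in the open annulus
  have key : ∀ w : ℂ, c < ‖w‖ → ‖w‖ < 1 → ‖b.eval w‖ ≤ F * ‖a.eval w‖ := by
    intro w hw hw1
    have hwb : w ∈ ball (0 : ℂ) 1 := by rwa [mem_ball_zero_iff]
    have hne : ∀ᶠ x in 𝓝[≠] w, Y x ≠ 0 := by
      rcases (han w hwb).eventually_eq_zero_or_eventually_ne_zero with h2 | h2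
      · exfalso
        obtain ⟨x, hx, hx0⟩ := hY0
        exact hx0 (han.eqOn_zero_of_preconnected_of_eventuallyEq_zero
          (convex_ball (0 : ℂ) 1).isPreconnected hwb h2 hx)
      · exact h2
    have hcl : ContinuousAt (fun x : ℂ => F * ‖a.eval x‖ - ‖b.eval x‖) w := by fun_prop
    have h3 : ∀ᶠ x in 𝓝[≠] w, 0 ≤ F * ‖a.eval x‖ - ‖b.eval x‖ := by
      have h4 : ∀ᶠ x in 𝓝[≠] w, c < ‖x‖ ∧ ‖x‖ < 1 := by
        refine eventually_nhdsWithin_of_eventually_nhds ?_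
        exact ((continuous_norm.tendsto w).eventually (lt_mem_nhds hw)).and
          ((continuous_norm.tendsto w).eventually (gt_mem_nhds hw1))
      filter_upwards [hne, h4] with x hx hx2
      have h5 := h x hx2.1.le hx2.2
      rw [norm_mul, norm_mul, ← mul_assoc] at h5
      have h6 := le_of_mul_le_mul_right h5 (norm_pos_iff.2 hx)
      linarith
    have h4 : Tendsto (fun x : ℂ => F * ‖a.eval x‖ - ‖b.eval x‖) (𝓝[≠] w)
        (𝓝 (F * ‖a.eval w‖ - ‖b.eval w‖)) := hcl.tendsto.mono_left nhdsWithin_le_nhds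
    have h5 := ge_of_tendsto h4 h3
    linarith
  -- the closed annulus
  have hz0 : 0 < ‖z‖ := h0.trans_le hz
  obtain ⟨s, hs, hs2⟩ : ∃ s : ℝ → ℝ, Tendsto s (𝓝[>] 0) (𝓝 1) ∧
      ∀ᶠ x in 𝓝[>] (0 : ℝ), c < |s x| * ‖z‖ ∧ |s x| * ‖z‖ < 1 := by
    refine ⟨fun x => (1 - x) + x * ((c + 1) / 2) / ‖z‖, ?_, ?_⟩
    · have hc : ContinuousAt (fun x : ℝ => (1 - x) + x * ((c + 1) / 2) / ‖z‖) 0 := by fun_prop
      have h2 := hc.tendsto
      simp only [sub_zero, zero_mul, zero_div, add_zero] at h2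
      exact h2.mono_left nhdsWithin_le_nhds
    · have h2 : ∀ᶠ x in 𝓝[>] (0 : ℝ), x ∈ Ioo (0 : ℝ) 1 := Ioo_mem_nhdsGT one_pos
      filter_upwards [h2] with x hx
      have hx0 := hx.1
      have hx1 := hx.2
      have h3 : 0 < (1 - x) + x * ((c + 1) / 2) / ‖z‖ := by
        have : 0 < x * ((c + 1) / 2) / ‖z‖ := by positivity
        linarith
      rw [abs_of_pos h3, add_mul, div_mul_cancel₀ _ hz0.ne']
      constructor
      · nlinarith
      · nlinarith
  have h2 : Tendsto (fun x : ℝ => F * ‖a.eval ((s x : ℂ) * z)‖ - ‖b.eval ((s x : ℂ) * z)‖) (𝓝[>] 0)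
      (𝓝 (F * ‖a.eval (((1 : ℝ) : ℂ) * z)‖ - ‖b.eval (((1 : ℝ) : ℂ) * z)‖)) := by
    have hc : Continuous (fun x : ℝ => F * ‖a.eval ((x : ℂ) * z)‖ - ‖b.eval ((x : ℂ) * z)‖) := by
      fun_prop
    exact (hc.tendsto 1).comp hs
  have h3 : ∀ᶠ x in 𝓝[>] (0 : ℝ),
      0 ≤ F * ‖a.eval ((s x : ℂ) * z)‖ - ‖b.eval ((s x : ℂ) * z)‖ := by
    filter_upwards [hs2] with x hx
    have h4 : ‖(s x : ℂ) * z‖ = |s x| * ‖z‖ := by
      rw [norm_mul, Complex.norm_real, Real.norm_eq_abs]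
    have := key ((s x : ℂ) * z) (by rw [h4]; exact hx.1) (by rw [h4]; exact hx.2)
    linarith
  have h4 := ge_of_tendsto h2 h3
  rw [Complex.ofReal_one, one_mul] at h4
  linarith

/-- a real quadratic inequality for all complex directions -/
theorem lin_zero {β : ℂ} {S : ℝ} (h : ∀ ε : ℂ, 2 * (ε * β).re ≤ ‖ε‖ ^ 2 * S) : β = 0 := by
  by_contra hβ
  have hp : 0 < ‖β‖ ^ 2 := by positivity
  have h2 := h (((1 / (|S| + 1) : ℝ) : ℂ) * (starRingEnd ℂ) β)
  have hS : 0 < |S| + 1 := by positivity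
  have h3 : (((1 / (|S| + 1) : ℝ) : ℂ) * (starRingEnd ℂ) β * β).re = 1 / (|S| + 1) * ‖β‖ ^ 2 := by
    rw [mul_assoc, mul_comm ((starRingEnd ℂ) β) β, Complex.mul_conj, Complex.normSq_eq_norm_sq,
      ← Complex.ofReal_mul, Complex.ofReal_re]
  have h4 : ‖((1 / (|S| + 1) : ℝ) : ℂ) * (starRingEnd ℂ) β‖ ^ 2 =
      (1 / (|S| + 1)) ^ 2 * ‖β‖ ^ 2 := by
    rw [norm_mul, Complex.norm_real, RCLike.norm_conj, mul_pow, Real.norm_eq_abs, sq_abs]
  rw [h3, h4] at h2
  have h5 : S ≤ |S| := le_abs_self S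
  have h6 : (1 / (|S| + 1)) ^ 2 * ‖β‖ ^ 2 * S ≤ 1 / (|S| + 1) * ‖β‖ ^ 2 := by
    have h7 : (1 / (|S| + 1)) ^ 2 * ‖β‖ ^ 2 * S ≤ (1 / (|S| + 1)) ^ 2 * ‖β‖ ^ 2 * (|S| + 1) :=
      mul_le_mul_of_nonneg_left (by linarith) (by positivity)
    have h8 : (1 / (|S| + 1)) ^ 2 * ‖β‖ ^ 2 * (|S| + 1) = 1 / (|S| + 1) * ‖β‖ ^ 2 := by
      field_simp
    linarith
  have h7 : 0 < 1 / (|S| + 1) * ‖β‖ ^ 2 := by positivity
  linarith

theorem stat {c : ℝ} (h0 : 0 < c) (h1 : c < 1) {f g Y : ℂ → ℂ} (h : Ext c f g) {a b : ℂ[X]}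
    (hYi : IntegrableOn (fun z => ‖Y z‖ ^ 2) (ball 0 1))
    (hf : ∀ z ∈ ball (0 : ℂ) 1, f z = b.eval z * Y z)
    (hg : ∀ z ∈ ball (0 : ℂ) 1, g z = a.eval z * Y z) {X : PowerSeries ℂ} (hX : TS Y X)
    (P : ℂ[X]) :
    ip ((a : PowerSeries ℂ) * X) (a * P) = ip ((b : PowerSeries ℂ) * X) (b * P) := by
  have hY : DifferentiableOn ℂ Y (ball 0 1) := ps_diff hX
  have hY0 : ∃ z ∈ ball (0 : ℂ) 1, Y z ≠ 0 := by
    by_contra hcon
    push Not at hcon
    have h2 : ∫ z in ball (0 : ℂ) 1, ‖f z‖ ^ 2 = 0 := by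
      rw [setIntegral_congr_fun (g := fun _ => (0 : ℝ)) measurableSet_ball]
      · simp
      · intro z hz
        simp only
        rw [hf z hz, hcon z hz, mul_zero, norm_zero]
        ring
    have h3 := h.1.2.2
    rw [h2, mul_zero] at h3
    exact zero_ne_one h3
  have hF := kf_pos' h0 h1
  have hdom : ∀ z : ℂ, c ≤ ‖z‖ → ‖z‖ < 1 → ‖b.eval z‖ ≤ KF c * ‖a.eval z‖ := by
    intro z hz hz1
    refine poly_dom h0 hY hY0 (fun w hw hw1 => ?_) hz hz1.le h1
    have h2 := h.2.2 w hw hw1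
    rwa [hf w (by rwa [mem_ball_zero_iff]), hg w (by rwa [mem_ball_zero_iff])] at h2
  have hTa : TS (fun z => a.eval z * Y z) ((a : PowerSeries ℂ) * X) := ts_mul (ts_poly a) hX
  have hTb : TS (fun z => b.eval z * Y z) ((b : PowerSeries ℂ) * X) := ts_mul (ts_poly b) hX
  have hia := int_mul hY.continuousOn hYi a
  have hib := int_mul hY.continuousOn hYi b
  have ha1 : sq (fun z => a.eval z * Y z) 1 = 1 := by
    rw [← sq_congr hg]
    exact h.2.1.2.2
  have hb1 : sq (fun z => b.eval z * Y z) 1 = 1 := by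
    rw [← sq_congr hf]
    exact h.1.2.2
  have key : ∀ ε : ℂ, 2 * (ε * (ip ((b : PowerSeries ℂ) * X) (b * P) -
      ip ((a : PowerSeries ℂ) * X) (a * P))).re ≤
      ‖ε‖ ^ 2 * (sq (fun z => (a * P).eval z) 1 - sq (fun z => (b * P).eval z) 1) := by
    intro ε
    have e1 := exp_norm hTa hia (C ε * (a * P))
    have e2 := exp_norm hTb hib (C ε * (b * P))
    have e3 : ∀ W : ℂ[X], sq (fun z => (C ε * W).eval z) 1 = ‖ε‖ ^ 2 * sq (fun z => W.eval z) 1 := by
      intro W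
      unfold Pool.Agent.Helper23.KB.sq
      have h2 : (fun z : ℂ => ‖(C ε * W).eval z‖ ^ 2) = fun z => ‖ε‖ ^ 2 * ‖W.eval z‖ ^ 2 := by
        funext z
        rw [eval_mul, eval_C, norm_mul, mul_pow]
      rw [h2, integral_const_mul]
      ring
    have hlin : ∀ (Z : PowerSeries ℂ) (W : ℂ[X]), ip Z (C ε * W) = ε * ip Z W := by
      intro Z W
      rw [← smul_eq_C_mul, map_smul, smul_eq_mul]
    rw [ha1, e3, hlin] at e1
    rw [hb1, e3, hlin] at e2
    have hd := dom_norm h0 h1 (kf_nonneg c) (u := fun z => b.eval z * Y z + (C ε * (b * P)).eval z)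
      (v := fun z => a.eval z * Y z + (C ε * (a * P)).eval z)
      (((Polynomial.differentiable b).differentiableOn.mul hY).add
        (Polynomial.differentiable _).differentiableOn)
      (int_add ((Polynomial.continuous b).continuousOn.mul hY.continuousOn)
        (Polynomial.continuous _).continuousOn hib (int_poly _))
      (((Polynomial.differentiable a).differentiableOn.mul hY).add
        (Polynomial.differentiable _).differentiableOn)
      (int_add ((Polynomial.continuous a).continuousOn.mul hY.continuousOn)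
        (Polynomial.continuous _).continuousOn hia (int_poly _))
      (fun z hz hz1 => by
        have h2 : b.eval z * Y z + (C ε * (b * P)).eval z = b.eval z * (Y z + ε * P.eval z) := by
          rw [eval_mul, eval_C, eval_mul]
          ring
        have h3 : a.eval z * Y z + (C ε * (a * P)).eval z = a.eval z * (Y z + ε * P.eval z) := by
          rw [eval_mul, eval_C, eval_mul]
          ring
        show ‖b.eval z * Y z + (C ε * (b * P)).eval z‖ ≤
          KF c * ‖a.eval z * Y z + (C ε * (a * P)).eval z‖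
        rw [h2, h3, norm_mul, norm_mul, ← mul_assoc]
        exact mul_le_mul_of_nonneg_right (hdom z hz hz1) (norm_nonneg _))
    have hd2 := le_of_mul_le_mul_left hd (by positivity)
    rw [e1, e2] at hd2
    rw [mul_sub, Complex.sub_re]
    linarith
  have h2 := lin_zero key
  exact (sub_eq_zero.1 h2).symm

end Pool.Agent.Helper23.KU
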