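import Pool.Agent.Helper23.KU.Peak

/-!
# KU, stage Z: definitions
-/

set_option autoImplicit false

namespace Pool.Agent.Helper23.KU

open Pool.Agent.Helper23.KB (Sph Dom KF Ext)

/-- the polynomial with the zeros `s` -/
noncomputable def mm (s : Multiset ℂ) (z : ℂ) : ℂ := (s.map fun a => z - a).prod

/-- the reversed polynomial, with the zeros `1 / conj a`, `a` in `s` -/
noncomputable def mr (s : Multiset ℂ) (z : ℂ) : ℂ :=
  (s.map fun a => 1 - (starRingEnd ℂ) a * z).prod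

/-- `f` does not decay exponentially relative to `g`: for every `ε > 0`,
`|f| ≥ exp (-ε / (1 - |z|)) |g|` near the unit circle. -/
def NoDecay (f g : ℂ → ℂ) : Prop :=
  ∀ ε : ℝ, 0 < ε → ∃ r < 1, ∀ z : ℂ, r ≤ ‖z‖ → ‖z‖ < 1 →
    Real.exp (-(ε / (1 - ‖z‖))) * ‖g z‖ ≤ ‖f z‖

/-- `f / g` is `F` times a quotient of Blaschke products times `exp (-A)`, `Re A ≥ 0`. -/
def Fact (c : ℝ) (f g : ℂ → ℂ) (s t : Multiset ℂ) (A : ℂ → ℂ) : Prop :=
  (∀ a ∈ s, ‖a‖ < c) ∧ (∀ b ∈ t, ‖b‖ < 1) ∧ DifferentiableOn ℂ A (Metric.ball 0 1) ∧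
    (∀ z ∈ Metric.ball (0 : ℂ) 1, 0 ≤ (A z).re) ∧
    ∀ z ∈ Metric.ball (0 : ℂ) 1, mm s z * mr t z * f z =
      mm t z * mr s z * (KF c : ℂ) * Complex.exp (-A z) * g z

end Pool.Agent.Helper23.KU
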